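import Mathlib

/-!
Holomorphic Poisson structures on complex manifolds, their rank, and complex submanifolds.
Here `X` is a complex manifold modelled on the finite-dimensional complex vector space `E`.
-/

set_option autoImplicit false

namespace Pool.Agent.Lib.MP_77e77d_ag

open scoped Manifold ContDiff

variable (E : Type) [NormedAddCommGroup E] [NormedSpace ℂ E]
  {X : Type} [TopologicalSpace X] [ChartedSpace E X]

/-- The holomorphic tangent space. -/
abbrev Tan (x : X) : Type := TangentSpace 𝓘(ℂ, E) x

/-- The holomorphic cotangent space. -/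
abbrev Cot (x : X) : Type := Module.Dual ℂ (Tan E x)

/-- The differential `df` at `x`. -/
noncomputable def dif (f : X → ℂ) (x : X) : Cot E x :=
  (mvfderiv 𝓘(ℂ, E) f x).toLinearMap

/-- `f` is holomorphic (complex analytic in the charts of `X`) on `U`. -/
def HolOn (f : X → ℂ) (U : Set X) : Prop :=
  ContMDiffOn 𝓘(ℂ, E) 𝓘(ℂ, ℂ) ω f U

/-- Near `x`, the set `A` is a complex submanifold of dimension `d`: on an open neighbourhood `U`
of `x` it is the common zero set of `k = dim X - d` holomorphic functions whose differentials at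
`x` are linearly independent. -/
def IsSubmanifoldAt (d : ℕ) (A : Set X) (x : X) : Prop :=
  ∃ (k : ℕ) (U : Set X) (f : Fin k → X → ℂ), d + k = Module.finrank ℂ E ∧ IsOpen U ∧ x ∈ U ∧
    (∀ i, HolOn E (f i) U) ∧ LinearIndependent ℂ (fun i => dif E (f i) x) ∧
    ∀ y ∈ U, (y ∈ A ↔ ∀ i, f i y = 0)

variable (X) in
/-- A field of complex linear maps `τ^♯(x)` from the cotangent to the tangent space. -/
abbrev SharpField : Type := ∀ x : X, Cot E x →ₗ[ℂ] Tan E x

variable {E}

/-- The bracket `{f, g}(x) = dg (τ^♯ df) = ⟨τ, df ∧ dg⟩`. -/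
noncomputable def bracket (τ : SharpField E X) (f g : X → ℂ) (x : X) : ℂ :=
  dif E g x (τ x (dif E f x))

/-- `τ` is a holomorphic Poisson structure: it is alternating (a bivector field), holomorphic
(the bracket of local holomorphic functions is holomorphic), and the bracket satisfies the
Jacobi identity on the structure sheaf. -/
structure IsHolPoisson (τ : SharpField E X) : Prop where
  alt : ∀ (x : X) (α : Cot E x), α (τ x α) = 0
  hol : ∀ U : Set X, IsOpen U → ∀ f g : X → ℂ, HolOn E f U → HolOn E g U →
    HolOn E (bracket τ f g) U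
  jacobi : ∀ U : Set X, IsOpen U → ∀ f g h : X → ℂ, HolOn E f U → HolOn E g U → HolOn E h U →
    ∀ x ∈ U, bracket τ f (bracket τ g h) x + bracket τ g (bracket τ h f) x +
      bracket τ h (bracket τ f g) x = 0

/-- The rank of `τ` at `x`: the rank of the linear map `τ^♯(x)`. -/
noncomputable def rankAt (τ : SharpField E X) (x : X) : ℕ :=
  Module.finrank ℂ (LinearMap.range (τ x))

/-- The locus `X_s` of points where `τ` has rank exactly `s`. -/
def rankLocus (τ : SharpField E X) (s : ℕ) : Set X := {x | rankAt τ x = s}

end Pool.Agent.Lib.MP_77e77d_ag
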