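import Mathlib

/-!
Poisson brackets on `ℂ^m` given by a skew matrix of functions.
-/

set_option autoImplicit false

namespace Pool.Agent.Lib.MP_77e77d_ag

open scoped ContDiff Topology
open Filter

variable {m : ℕ}

/-- The sharp map of a matrix. -/
noncomputable def sh (B : Fin m → Fin m → ℂ) : ((Fin m → ℂ) →L[ℂ] ℂ) →ₗ[ℂ] (Fin m → ℂ) where
  toFun α := fun j => ∑ i, B i j * α (Pi.single i 1)
  map_add' α β := by
    funext j
    simp only [add_apply, mul_add, Finset.sum_add_distrib, Pi.add_apply]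
  map_smul' c α := by
    funext j
    simp only [smul_apply, smul_eq_mul, RingHom.id_apply, Pi.smul_apply,
      Finset.mul_sum]
    exact Finset.sum_congr rfl fun i _ => by ring

theorem sh_apply (B : Fin m → Fin m → ℂ) (α : (Fin m → ℂ) →L[ℂ] ℂ) (j : Fin m) :
    sh B α j = ∑ i, B i j * α (Pi.single i 1) := rfl

theorem clm_apply_eq_sum (β : (Fin m → ℂ) →L[ℂ] ℂ) (w : Fin m → ℂ) :
    β w = ∑ j, w j * β (Pi.single j 1) := by
  conv_lhs => rw [← Finset.univ_sum_single w]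
  rw [map_sum]
  refine Finset.sum_congr rfl fun j _ => ?_
  rw [← smul_eq_mul, ← map_smul, ← Pi.single_smul', smul_eq_mul, mul_one]

theorem apply_sh (B : Fin m → Fin m → ℂ) (α β : (Fin m → ℂ) →L[ℂ] ℂ) :
    β (sh B α) = ∑ i, ∑ j, B i j * α (Pi.single i 1) * β (Pi.single j 1) := by
  rw [clm_apply_eq_sum, Finset.sum_comm]
  refine Finset.sum_congr rfl fun j _ => ?_
  rw [sh_apply, Finset.sum_mul]

theorem apply_sh_skew {B : Fin m → Fin m → ℂ} (hB : ∀ i j, B j i = -B i j)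
    (α β : (Fin m → ℂ) →L[ℂ] ℂ) : β (sh B α) = -α (sh B β) := by
  rw [apply_sh, apply_sh, Finset.sum_comm, ← Finset.sum_neg_distrib]
  refine Finset.sum_congr rfl fun i _ => ?_
  rw [← Finset.sum_neg_distrib]
  refine Finset.sum_congr rfl fun j _ => ?_
  rw [hB]; ring

theorem sh_smul (c : ℂ) (B : Fin m → Fin m → ℂ) (α : (Fin m → ℂ) →L[ℂ] ℂ) :
    sh (fun i j => c * B i j) α = c • sh B α := by
  funext j
  simp only [sh_apply, Pi.smul_apply, smul_eq_mul, Finset.mul_sum, mul_assoc]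

/-- The flat bracket. -/
noncomputable def fb (A : (Fin m → ℂ) → Fin m → Fin m → ℂ) (F G : (Fin m → ℂ) → ℂ)
    (u : Fin m → ℂ) : ℂ :=
  fderiv ℂ G u (sh (A u) (fderiv ℂ F u))

theorem fb_eq (A : (Fin m → ℂ) → Fin m → Fin m → ℂ) (F G : (Fin m → ℂ) → ℂ) :
    fb A F G = fun u => ∑ i, ∑ j, A u i j * fderiv ℂ F u (Pi.single i 1) *
      fderiv ℂ G u (Pi.single j 1) := by
  funext u
  rw [fb, apply_sh]

theorem contDiffAt_fderiv_apply {F : (Fin m → ℂ) → ℂ} {v : Fin m → ℂ}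
    (hF : ContDiffAt ℂ ω F v) (w : Fin m → ℂ) :
    ContDiffAt ℂ ω (fun u => fderiv ℂ F u w) v :=
  (hF.fderiv_right (m := ω) le_rfl).clm_apply contDiffAt_const

theorem contDiffAt_fb {A : (Fin m → ℂ) → Fin m → Fin m → ℂ} {F G : (Fin m → ℂ) → ℂ}
    {v : Fin m → ℂ} (hA : ∀ i j, ContDiffAt ℂ ω (fun u => A u i j) v)
    (hF : ContDiffAt ℂ ω F v) (hG : ContDiffAt ℂ ω G v) : ContDiffAt ℂ ω (fb A F G) v := by
  rw [fb_eq]
  refine ContDiffAt.sum fun i _ => ContDiffAt.sum fun j _ => ?_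
  exact ((hA i j).mul (contDiffAt_fderiv_apply hF _)).mul (contDiffAt_fderiv_apply hG _)

theorem hasFDerivAt_fderiv_apply {F : (Fin m → ℂ) → ℂ} {v : Fin m → ℂ}
    (hF : ContDiffAt ℂ ω F v) (w : Fin m → ℂ) :
    HasFDerivAt (fun u => fderiv ℂ F u w) ((fderiv ℂ (fderiv ℂ F) v).flip w) v := by
  have h1 : HasFDerivAt (fderiv ℂ F) (fderiv ℂ (fderiv ℂ F) v) v :=
    ((hF.fderiv_right (m := ω) le_rfl).differentiableAt (by simp)).hasFDerivAt
  have h2 := h1.clm_apply (hasFDerivAt_const w v)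
  simpa using h2

theorem fderiv_fb {A : (Fin m → ℂ) → Fin m → Fin m → ℂ} {G H : (Fin m → ℂ) → ℂ}
    {v : Fin m → ℂ} (hA : ∀ i j, ContDiffAt ℂ ω (fun u => A u i j) v)
    (hskew : ∀ i j, A v j i = -A v i j)
    (hG : ContDiffAt ℂ ω G v) (hH : ContDiffAt ℂ ω H v) (w : Fin m → ℂ) :
    fderiv ℂ (fb A G H) v w =
      (∑ i, ∑ j, fderiv ℂ (fun u => A u i j) v w * fderiv ℂ G v (Pi.single i 1) *
        fderiv ℂ H v (Pi.single j 1)) +
      fderiv ℂ (fderiv ℂ H) v w (sh (A v) (fderiv ℂ G v)) -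
      fderiv ℂ (fderiv ℂ G) v w (sh (A v) (fderiv ℂ H v)) := by
  have h1 : ∀ i j, HasFDerivAt (fun u => A u i j * fderiv ℂ G u (Pi.single i 1) *
      fderiv ℂ H u (Pi.single j 1)) _ v := fun i j =>
    (((hA i j).differentiableAt (by simp)).hasFDerivAt.mul
      (hasFDerivAt_fderiv_apply hG (Pi.single i 1))).mul (hasFDerivAt_fderiv_apply hH (Pi.single j 1))
  have h2 := HasFDerivAt.fun_sum (u := Finset.univ)
    fun i _ => HasFDerivAt.fun_sum (u := Finset.univ) fun j _ => h1 i j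
  rw [fb_eq, h2.fderiv, sub_eq_add_neg,
    ← apply_sh_skew hskew (fderiv ℂ (fderiv ℂ G) v w) (fderiv ℂ H v), apply_sh, apply_sh]
  simp only [FunLike.coe_sum, Finset.sum_apply, add_apply,
    smul_apply, smul_eq_mul, ContinuousLinearMap.flip_apply, Pi.mul_apply,
    ← Finset.sum_add_distrib]
  refine Finset.sum_congr rfl fun i _ => Finset.sum_congr rfl fun j _ => ?_
  ring

theorem schouten_sum (B : Fin m → Fin m → ℂ) (D : Fin m → Fin m → Fin m → ℂ)
    (a b c : Fin m → ℂ) :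
    (∑ i, ∑ j, (∑ l, (∑ k, B k l * a k) * D i j l) * b i * c j) =
      ∑ k, ∑ i, ∑ j, a k * b i * c j * ∑ l, B k l * D i j l := by
  rw [Finset.sum_comm]
  conv_rhs => rw [Finset.sum_comm]
  rw [Finset.sum_comm]
  refine Finset.sum_congr rfl fun i _ => ?_
  rw [Finset.sum_comm]
  refine Finset.sum_congr rfl fun j _ => ?_
  simp only [Finset.sum_mul, Finset.mul_sum]
  rw [Finset.sum_comm]
  refine Finset.sum_congr rfl fun k _ => Finset.sum_congr rfl fun l _ => ?_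
  ring

theorem sum3_rot (T : Fin m → Fin m → Fin m → ℂ) :
    ∑ k, ∑ i, ∑ j, T k i j = ∑ j, ∑ k, ∑ i, T k i j := by
  symm
  rw [Finset.sum_comm]
  refine Finset.sum_congr rfl fun k _ => ?_
  rw [Finset.sum_comm]

theorem jacobi_fb {A : (Fin m → ℂ) → Fin m → Fin m → ℂ} {F G H : (Fin m → ℂ) → ℂ}
    {v : Fin m → ℂ} (hA : ∀ i j, ContDiffAt ℂ ω (fun u => A u i j) v)
    (hskew : ∀ i j, A v j i = -A v i j)
    (hJ : ∀ i j k, (∑ l, A v i l * fderiv ℂ (fun u => A u j k) v (Pi.single l 1)) +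
      (∑ l, A v j l * fderiv ℂ (fun u => A u k i) v (Pi.single l 1)) +
      (∑ l, A v k l * fderiv ℂ (fun u => A u i j) v (Pi.single l 1)) = 0)
    (hF : ContDiffAt ℂ ω F v) (hG : ContDiffAt ℂ ω G v) (hH : ContDiffAt ℂ ω H v) :
    fb A F (fb A G H) v + fb A G (fb A H F) v + fb A H (fb A F G) v = 0 := by
  have sF := hF.isSymmSndFDerivAt_of_omega
  have sG := hG.isSymmSndFDerivAt_of_omega
  have sH := hH.isSymmSndFDerivAt_of_omega
  have key : ∀ α β γ : (Fin m → ℂ) →L[ℂ] ℂ,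
      (∑ i, ∑ j, fderiv ℂ (fun u => A u i j) v (sh (A v) α) * β (Pi.single i 1) *
        γ (Pi.single j 1)) =
      ∑ k, ∑ i, ∑ j, α (Pi.single k 1) * β (Pi.single i 1) * γ (Pi.single j 1) *
        ∑ l, A v k l * fderiv ℂ (fun u => A u i j) v (Pi.single l 1) := by
    intro α β γ
    rw [← schouten_sum]
    refine Finset.sum_congr rfl fun i _ => Finset.sum_congr rfl fun j _ => ?_
    rw [clm_apply_eq_sum]
    rfl
  have e1 : fb A F (fb A G H) v = fderiv ℂ (fb A G H) v (sh (A v) (fderiv ℂ F v)) := rfl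
  have e2 : fb A G (fb A H F) v = fderiv ℂ (fb A H F) v (sh (A v) (fderiv ℂ G v)) := rfl
  have e3 : fb A H (fb A F G) v = fderiv ℂ (fb A F G) v (sh (A v) (fderiv ℂ H v)) := rfl
  rw [e1, e2, e3, fderiv_fb hA hskew hG hH, fderiv_fb hA hskew hH hF, fderiv_fb hA hskew hF hG,
    key, key, key, sF.eq (sh (A v) (fderiv ℂ G v)), sG.eq (sh (A v) (fderiv ℂ H v)),
    sH.eq (sh (A v) (fderiv ℂ F v))]
  set a := fun k => fderiv ℂ F v (Pi.single k 1) with ha
  set b := fun k => fderiv ℂ G v (Pi.single k 1) with hb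
  set c := fun k => fderiv ℂ H v (Pi.single k 1) with hc
  set T := fun k i j => ∑ l, A v k l * fderiv ℂ (fun u => A u i j) v (Pi.single l 1) with hT
  have h0 : (∑ k, ∑ i, ∑ j, a k * b i * c j * T k i j) +
      (∑ k, ∑ i, ∑ j, b k * c i * a j * T k i j) +
      (∑ k, ∑ i, ∑ j, c k * a i * b j * T k i j) = 0 := by
    rw [sum3_rot (fun k i j => b k * c i * a j * T k i j),
      ← sum3_rot (fun i j k => c k * a i * b j * T k i j)]
    simp only [← Finset.sum_add_distrib]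
    refine Finset.sum_eq_zero fun i _ => Finset.sum_eq_zero fun j _ =>
      Finset.sum_eq_zero fun k _ => ?_
    have := hJ i j k
    linear_combination (a i * b j * c k) * this
  linear_combination h0

/-- The flat bracket of functions invariant under a homothety is invariant, when the
coefficients are homogeneous of degree two. -/
theorem fderiv_of_invariant {F : (Fin m → ℂ) → ℂ} {v : Fin m → ℂ} {c : ℂ} (hc : c ≠ 0)
    (hF : (fun u => F (c • u)) =ᶠ[𝓝 v] F) :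
    fderiv ℂ F v = c • fderiv ℂ F (c • v) := by
  rw [← hF.fderiv_eq]
  let L : (Fin m → ℂ) ≃L[ℂ] (Fin m → ℂ) :=
    ContinuousLinearEquiv.equivOfInverse (c • ContinuousLinearMap.id ℂ _)
      (c⁻¹ • ContinuousLinearMap.id ℂ _)
      (fun u => by simp [smul_smul, hc]) (fun u => by simp [smul_smul, hc])
  have h1 : (fun u => F (c • u)) = F ∘ L := rfl
  rw [h1, L.comp_right_fderiv]
  ext w
  simp [L]

theorem fb_smul {A : (Fin m → ℂ) → Fin m → Fin m → ℂ} {F G : (Fin m → ℂ) → ℂ}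
    {v : Fin m → ℂ} {c : ℂ} (hc : c ≠ 0) (hA : ∀ i j, A (c • v) i j = c ^ 2 * A v i j)
    (hF : (fun u => F (c • u)) =ᶠ[𝓝 v] F) (hG : (fun u => G (c • u)) =ᶠ[𝓝 v] G) :
    fb A F G (c • v) = fb A F G v := by
  simp only [fb_eq]
  rw [fderiv_of_invariant hc hF, fderiv_of_invariant hc hG]
  refine Finset.sum_congr rfl fun i _ => Finset.sum_congr rfl fun j _ => ?_
  rw [hA]
  simp only [smul_apply, smul_eq_mul]
  ring

end Pool.Agent.Lib.MP_77e77d_ag
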