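import Mathlib
import Pool.Agent.Lib.MP_77e77d_ag.Defs
import Pool.Agent.Lib.MP_77e77d_ag.Flat

/-!
Descent of a quadratic Poisson structure on an open subset of `ℂ^m` to a quotient by homotheties.
-/

set_option autoImplicit false

namespace Pool.Agent.Lib.MP_77e77d_ag

open scoped ContDiff Topology Manifold
open Filter

variable {m n : ℕ} {X : Type} [TopologicalSpace X] [ChartedSpace (Fin n → ℂ) X]

variable (n) in
/-- The differential of a map from `ℂ^m` to `X`, read in the preferred chart. -/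
noncomputable def dπ (π : (Fin m → ℂ) → X) (v : Fin m → ℂ) : (Fin m → ℂ) →L[ℂ] (Fin n → ℂ) :=
  mfderiv 𝓘(ℂ, Fin m → ℂ) 𝓘(ℂ, Fin n → ℂ) π v

variable (n) in
/-- The differential of a function on `X`, read in the preferred chart. -/
noncomputable def dF (f : X → ℂ) (x : X) : (Fin n → ℂ) →L[ℂ] ℂ :=
  mvfderiv 𝓘(ℂ, Fin n → ℂ) f x

/-- Push-forward of a sharp map along a linear map. -/
noncomputable def pushSh (L : (Fin m → ℂ) →L[ℂ] (Fin n → ℂ)) (B : Fin m → Fin m → ℂ) :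
    ((Fin n → ℂ) →L[ℂ] ℂ) →ₗ[ℂ] (Fin n → ℂ) where
  toFun α := L (sh B (α.comp L))
  map_add' α β := by rw [ContinuousLinearMap.add_comp, map_add, map_add]
  map_smul' c α := by rw [ContinuousLinearMap.smul_comp, map_smul, map_smul, RingHom.id_apply]

theorem fderiv_comp_eq {π : (Fin m → ℂ) → X} {v : Fin m → ℂ} {f : X → ℂ} {x : X}
    (hx : π v = x) (hπ : ContMDiffAt 𝓘(ℂ, Fin m → ℂ) 𝓘(ℂ, Fin n → ℂ) ω π v)
    (hf : ContMDiffAt 𝓘(ℂ, Fin n → ℂ) 𝓘(ℂ, ℂ) ω f x) :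
    fderiv ℂ (f ∘ π) v = (dF n f x).comp (dπ n π v) := by
  subst hx
  have h := mfderiv_comp v (hf.mdifferentiableAt (by simp)) (hπ.mdifferentiableAt (by simp))
  rw [mfderiv_eq_fderiv] at h
  exact h

theorem contDiffAt_comp {π : (Fin m → ℂ) → X} {v : Fin m → ℂ} {f : X → ℂ} {x : X}
    (hx : π v = x) (hπ : ContMDiffAt 𝓘(ℂ, Fin m → ℂ) 𝓘(ℂ, Fin n → ℂ) ω π v)
    (hf : ContMDiffAt 𝓘(ℂ, Fin n → ℂ) 𝓘(ℂ, ℂ) ω f x) : ContDiffAt ℂ ω (f ∘ π) v := by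
  subst hx
  exact contMDiffAt_iff_contDiffAt.mp (hf.comp v hπ)

theorem descent {π : (Fin m → ℂ) → X} {M : Set (Fin m → ℂ)} (hM : IsOpen M)
    (hπ : ∀ v ∈ M, ContMDiffAt 𝓘(ℂ, Fin m → ℂ) 𝓘(ℂ, Fin n → ℂ) ω π v)
    (hsec : ∀ x : X, ∃ s : X → (Fin m → ℂ), s x ∈ M ∧
      ContMDiffAt 𝓘(ℂ, Fin n → ℂ) 𝓘(ℂ, Fin m → ℂ) ω s x ∧ ∀ᶠ y in 𝓝 x, π (s y) = y)
    (hfib : ∀ v ∈ M, ∀ w ∈ M, π v = π w → ∃ c : ℂ, c ≠ 0 ∧ w = c • v ∧
      ∀ᶠ u in 𝓝 v, π (c • u) = π u)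
    {A : (Fin m → ℂ) → Fin m → Fin m → ℂ}
    (hA : ∀ v i j, ContDiffAt ℂ ω (fun u => A u i j) v)
    (hskew : ∀ v i j, A v j i = -A v i j)
    (hhom : ∀ (c : ℂ) v i j, A (c • v) i j = c ^ 2 * A v i j)
    (hJ : ∀ v i j k, (∑ l, A v i l * fderiv ℂ (fun u => A u j k) v (Pi.single l 1)) +
      (∑ l, A v j l * fderiv ℂ (fun u => A u k i) v (Pi.single l 1)) +
      (∑ l, A v k l * fderiv ℂ (fun u => A u i j) v (Pi.single l 1)) = 0) :
    ∃ τ : SharpField (Fin n → ℂ) X, IsHolPoisson τ ∧ ∀ x : X, ∃ v ∈ M, π v = x ∧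
      rankAt τ x = Module.finrank ℂ (LinearMap.range (pushSh (dπ n π v) (A v))) := by
  choose s hsM hs hsπ using hsec
  have hlift : ∀ x, π (s x x) = x := fun x => (hsπ x).self_of_nhds
  let τ : SharpField (Fin n → ℂ) X := fun x => pushSh (dπ n π (s x x)) (A (s x x)) ∘ₗ
    (LinearMap.toContinuousLinearMap :
      ((Fin n → ℂ) →ₗ[ℂ] ℂ) ≃ₗ[ℂ] ((Fin n → ℂ) →L[ℂ] ℂ)).toLinearMap
  have hbr0 : ∀ (f g : X → ℂ) (x : X), ContMDiffAt 𝓘(ℂ, Fin n → ℂ) 𝓘(ℂ, ℂ) ω f x →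
      ContMDiffAt 𝓘(ℂ, Fin n → ℂ) 𝓘(ℂ, ℂ) ω g x →
      bracket τ f g x = fb A (f ∘ π) (g ∘ π) (s x x) := by
    intro f g x hf hg
    rw [fb, fderiv_comp_eq (hlift x) (hπ _ (hsM x)) hf, fderiv_comp_eq (hlift x) (hπ _ (hsM x)) hg]
    rfl
  have hbr : ∀ (f g : X → ℂ) (v : Fin m → ℂ), v ∈ M →
      ContMDiffAt 𝓘(ℂ, Fin n → ℂ) 𝓘(ℂ, ℂ) ω f (π v) →
      ContMDiffAt 𝓘(ℂ, Fin n → ℂ) 𝓘(ℂ, ℂ) ω g (π v) →
      bracket τ f g (π v) = fb A (f ∘ π) (g ∘ π) v := by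
    intro f g v hv hf hg
    obtain ⟨c, hc, hcv, hev⟩ := hfib v hv (s (π v) (π v)) (hsM _) (hlift _).symm
    rw [hbr0 f g _ hf hg, hcv]
    refine fb_smul hc (hhom c v) ?_ ?_
    · filter_upwards [hev] with u hu
      simp only [Function.comp_apply, hu]
    · filter_upwards [hev] with u hu
      simp only [Function.comp_apply, hu]
  have hhol : ∀ U : Set X, IsOpen U → ∀ f g : X → ℂ, HolOn (Fin n → ℂ) f U → HolOn (Fin n → ℂ) g U →
      HolOn (Fin n → ℂ) (bracket τ f g) U := by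
    intro U hU f g hf hg x hx
    apply ContMDiffAt.contMDiffWithinAt
    have hfx := hf.contMDiffAt (hU.mem_nhds hx)
    have hgx := hg.contMDiffAt (hU.mem_nhds hx)
    have h1 : ContDiffAt ℂ ω (fb A (f ∘ π) (g ∘ π)) (s x x) :=
      contDiffAt_fb (hA _) (contDiffAt_comp (hlift x) (hπ _ (hsM x)) hfx)
        (contDiffAt_comp (hlift x) (hπ _ (hsM x)) hgx)
    have h2 := (contMDiffAt_iff_contDiffAt.mpr h1).comp x (hs x)
    refine h2.congr_of_eventuallyEq ?_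
    have h3 : ∀ᶠ y in 𝓝 x, s x y ∈ M := (hs x).continuousAt.eventually (hM.mem_nhds (hsM x))
    filter_upwards [hsπ x, h3, hU.mem_nhds hx] with y hy1 hy2 hy3
    have hfy := hf.contMDiffAt (hU.mem_nhds hy3)
    have hgy := hg.contMDiffAt (hU.mem_nhds hy3)
    rw [← hy1] at hfy hgy
    have := hbr f g (s x y) hy2 hfy hgy
    rw [hy1] at this
    exact this
  refine ⟨τ, ⟨?_, hhol, ?_⟩, fun x => ⟨s x x, hsM x, hlift x, ?_⟩⟩
  rotate_right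
  · have h := LinearEquiv.range_comp (LinearMap.toContinuousLinearMap :
      ((Fin n → ℂ) →ₗ[ℂ] ℂ) ≃ₗ[ℂ] ((Fin n → ℂ) →L[ℂ] ℂ)) (pushSh (dπ n π (s x x)) (A (s x x)))
    rw [← h]
    rfl
  · intro x α
    let α' : (Fin n → ℂ) →ₗ[ℂ] ℂ := α
    have h := apply_sh_skew (hskew (s x x))
      ((LinearMap.toContinuousLinearMap α').comp (dπ n π (s x x)))
      ((LinearMap.toContinuousLinearMap α').comp (dπ n π (s x x)))
    exact self_eq_neg.mp h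
  · have hnest : ∀ U : Set X, IsOpen U → ∀ f g h : X → ℂ, HolOn (Fin n → ℂ) f U → HolOn (Fin n → ℂ) g U →
        HolOn (Fin n → ℂ) h U → ∀ x ∈ U, bracket τ f (bracket τ g h) x =
          fb A (f ∘ π) (fb A (g ∘ π) (h ∘ π)) (s x x) := by
      intro U hU f g h hf hg hh x hx
      rw [hbr0 f _ x (hf.contMDiffAt (hU.mem_nhds hx))
        ((hhol U hU g h hg hh).contMDiffAt (hU.mem_nhds hx))]
      have hev : (bracket τ g h ∘ π) =ᶠ[𝓝 (s x x)] fb A (g ∘ π) (h ∘ π) := by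
        have h3 : ∀ᶠ u in 𝓝 (s x x), π u ∈ U := by
          apply (hπ _ (hsM x)).continuousAt.eventually
          rw [hlift]
          exact hU.mem_nhds hx
        filter_upwards [h3, hM.mem_nhds (hsM x)] with u hu1 hu2
        exact hbr g h u hu2 (hg.contMDiffAt (hU.mem_nhds hu1)) (hh.contMDiffAt (hU.mem_nhds hu1))
      simp only [fb]
      rw [hev.fderiv_eq]
    intro U hU f g h hf hg hh x hx
    rw [hnest U hU f g h hf hg hh x hx, hnest U hU g h f hg hh hf x hx,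
      hnest U hU h f g hh hf hg x hx]
    exact jacobi_fb (hA _) (hskew _) (hJ _)
      (contDiffAt_comp (hlift x) (hπ _ (hsM x)) (hf.contMDiffAt (hU.mem_nhds hx)))
      (contDiffAt_comp (hlift x) (hπ _ (hsM x)) (hg.contMDiffAt (hU.mem_nhds hx)))
      (contDiffAt_comp (hlift x) (hπ _ (hsM x)) (hh.contMDiffAt (hU.mem_nhds hx)))

theorem isSubmanifoldAt_of_surjective {d k : ℕ} (hd : d + k = n) {A U : Set X} {x : X}
    (hU : IsOpen U) (hx : x ∈ U) {f : X → (Fin k → ℂ)}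
    (hf : ContMDiffOn 𝓘(ℂ, Fin n → ℂ) 𝓘(ℂ, Fin k → ℂ) ω f U)
    (hs : Function.Surjective (mfderiv 𝓘(ℂ, Fin n → ℂ) 𝓘(ℂ, Fin k → ℂ) f x))
    (hA : ∀ y ∈ U, (y ∈ A ↔ f y = 0)) : IsSubmanifoldAt (Fin n → ℂ) d A x := by
  have hp : ∀ i : Fin k, ContMDiff 𝓘(ℂ, Fin k → ℂ) 𝓘(ℂ, ℂ) ω (fun u : Fin k → ℂ => u i) :=
    fun i => (contDiff_apply ℂ ℂ i).contMDiff
  refine ⟨k, U, fun i y => f y i, by simpa using hd, hU, hx, fun i => (hp i).comp_contMDiffOn hf,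
    ?_, fun y hy => (hA y hy).trans funext_iff⟩
  let L : (Fin n → ℂ) →L[ℂ] (Fin k → ℂ) := mfderiv 𝓘(ℂ, Fin n → ℂ) 𝓘(ℂ, Fin k → ℂ) f x
  have hL : Function.Surjective L := hs
  have h1 : ∀ (i : Fin k) (w : Fin n → ℂ), dF n (fun y => f y i) x w = L w i := by
    intro i w
    have h := mfderiv_comp x ((hp i).mdifferentiableAt (by simp))
      ((hf.contMDiffAt (hU.mem_nhds hx)).mdifferentiableAt (by simp))
    rw [mfderiv_eq_fderiv, (hasFDerivAt_apply i (f x)).fderiv] at h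
    exact congrArg (fun T : (Fin n → ℂ) →L[ℂ] ℂ => T w) h
  rw [Fintype.linearIndependent_iff]
  intro c hc i
  obtain ⟨w, hw⟩ := hL (Pi.single i 1)
  have h2 := LinearMap.congr_fun hc w
  rw [LinearMap.sum_apply] at h2
  have h3 : ∑ j, c j * L w j = 0 := by
    refine Eq.trans (Finset.sum_congr rfl fun j _ => ?_) h2
    rw [← h1]
    rfl
  simpa [hw, Pi.single_apply] using h3

end Pool.Agent.Lib.MP_77e77d_ag
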