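import Mathlib
import Pool.Agent.Lib.MP_77e77d_ag.Descent

/-!
Rank of skew-symmetric matrices via Pfaffians of order four.
-/

set_option autoImplicit false

namespace Pool.Agent.Lib.MP_77e77d_ag

open Module

variable {m : ℕ}

theorem range_sh (B : Fin m → Fin m → ℂ) :
    LinearMap.range (sh B) = LinearMap.range (Matrix.mulVecLin (Matrix.of B).transpose) := by
  ext w
  simp only [LinearMap.mem_range]
  constructor
  · rintro ⟨α, rfl⟩
    refine ⟨fun i => α (Pi.single i 1), ?_⟩
    funext j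
    simp [sh_apply, Matrix.vecMul, dotProduct, mul_comm]
  · rintro ⟨a, rfl⟩
    refine ⟨∑ i, a i • ContinuousLinearMap.proj (R := ℂ) (φ := fun _ : Fin m => ℂ) i, ?_⟩
    funext j
    simp [sh_apply, Matrix.vecMul, dotProduct, mul_comm, Pi.single_apply]

theorem finrank_range_sh (B : Fin m → Fin m → ℂ) :
    finrank ℂ (LinearMap.range (sh B)) = (Matrix.of B).rank := by
  rw [range_sh, ← Matrix.rank_transpose]
  rfl

theorem finrank_range_pushSh {n : ℕ} {L : (Fin m → ℂ) →L[ℂ] (Fin n → ℂ)}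
    (hL : Function.Bijective L) (B : Fin m → Fin m → ℂ) :
    finrank ℂ (LinearMap.range (pushSh L B)) = (Matrix.of B).rank := by
  rw [← finrank_range_sh]
  let e : (Fin m → ℂ) ≃L[ℂ] (Fin n → ℂ) :=
    (LinearEquiv.ofBijective L.toLinearMap hL).toContinuousLinearEquiv
  have he : ∀ w, e w = L w := fun w => rfl
  have h1 : LinearMap.range (pushSh L B) =
      (LinearMap.range (sh B)).map (e.toLinearEquiv : (Fin m → ℂ) →ₗ[ℂ] (Fin n → ℂ)) := by
    ext w
    simp only [LinearMap.mem_range, Submodule.mem_map]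
    constructor
    · rintro ⟨α, rfl⟩
      exact ⟨_, ⟨α.comp L, rfl⟩, rfl⟩
    · rintro ⟨_, ⟨α, rfl⟩, rfl⟩
      refine ⟨α.comp (e.symm : (Fin n → ℂ) →L[ℂ] (Fin m → ℂ)), ?_⟩
      have : (α.comp (e.symm : (Fin n → ℂ) →L[ℂ] (Fin m → ℂ))).comp L = α := by
        ext1 w
        simp only [ContinuousLinearMap.comp_apply, ← he, ContinuousLinearEquiv.coe_coe,
          ContinuousLinearEquiv.symm_apply_apply]
      change L (sh B ((α.comp (e.symm : (Fin n → ℂ) →L[ℂ] (Fin m → ℂ))).comp L)) = _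
      rw [this]
      rfl
  rw [h1, LinearEquiv.finrank_map_eq]

/-- The Pfaffian of the principal `4 × 4` submatrix with indices `a, b, c, d`. -/
def pf4 (B : Fin m → Fin m → ℂ) (a b c d : Fin m) : ℂ :=
  B a b * B c d - B a c * B b d + B a d * B b c

theorem diag_zero {B : Fin m → Fin m → ℂ} (hB : ∀ i j, B j i = -B i j) (a : Fin m) :
    B a a = 0 := by
  have := hB a a
  linear_combination (1 / 2 : ℂ) * this

theorem two_le_rank {B : Fin m → Fin m → ℂ} (hB : ∀ i j, B j i = -B i j) {a b : Fin m}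
    (h : B a b ≠ 0) : 2 ≤ (Matrix.of B).rank := by
  have h1 := Matrix.rank_submatrix_le (Matrix.of B) ![a, b] ![a, b]
  have h2 : IsUnit ((Matrix.of B).submatrix ![a, b] ![a, b]) := by
    rw [Matrix.isUnit_iff_isUnit_det, isUnit_iff_ne_zero, Matrix.det_fin_two]
    simp [diag_zero hB, hB a b, h]
  rwa [Matrix.rank_of_isUnit _ h2, Fintype.card_fin] at h1

theorem four_le_rank {B : Fin m → Fin m → ℂ} (hB : ∀ i j, B j i = -B i j) {a b c d : Fin m}
    (h : pf4 B a b c d ≠ 0) : 4 ≤ (Matrix.of B).rank := by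
  have h1 := Matrix.rank_submatrix_le (Matrix.of B) ![a, b, c, d] ![a, b, c, d]
  have h2 : IsUnit ((Matrix.of B).submatrix ![a, b, c, d] ![a, b, c, d]) := by
    rw [Matrix.isUnit_iff_isUnit_det, isUnit_iff_ne_zero]
    have : ((Matrix.of B).submatrix ![a, b, c, d] ![a, b, c, d]).det = pf4 B a b c d ^ 2 := by
      rw [Matrix.det_succ_row_zero]
      simp [Fin.sum_univ_succ, Matrix.det_fin_three, Fin.succAbove, diag_zero hB, hB a b, hB a c,
        hB a d, hB b c, hB b d, hB c d, pf4]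
      ring
    rw [this]
    exact pow_ne_zero 2 h
  rwa [Matrix.rank_of_isUnit _ h2, Fintype.card_fin] at h1

theorem rank_le_two {B : Fin m → Fin m → ℂ} {a b : Fin m} (h : B a b ≠ 0)
    (hP : ∀ c d, pf4 B a b c d = 0) : (Matrix.of B).rank ≤ 2 := by
  have h1 : Matrix.of B =
      (Matrix.of fun (c : Fin m) (r : Fin 2) => ![B a c / B a b, -B b c / B a b] r) *
      (Matrix.of fun (r : Fin 2) (d : Fin m) => ![B b d, B a d] r) := by
    ext c d
    have := hP c d
    simp only [pf4] at this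
    simp only [Matrix.of_apply, Matrix.mul_apply, Fin.sum_univ_two, Matrix.cons_val_zero,
      Matrix.cons_val_one]
    field_simp
    linear_combination this
  rw [h1]
  exact (Matrix.rank_mul_le_left _ _).trans (Matrix.rank_le_width _)

theorem all_of_sorted {P : Fin m → Fin m → Fin m → Fin m → Prop}
    (s1 : ∀ a b c d, P a b c d → P b a c d) (s2 : ∀ a b c d, P a b c d → P a c b d)
    (s3 : ∀ a b c d, P a b c d → P a b d c)
    (h : ∀ a b c d, a ≤ b → b ≤ c → c ≤ d → P a b c d) : ∀ a b c d, P a b c d := by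
  have h1 : ∀ a b c d, a ≤ b → b ≤ c → P a b c d := by
    intro a b c d hab hbc
    rcases le_total c d with hcd | hcd
    · exact h _ _ _ _ hab hbc hcd
    rcases le_total b d with hbd | hbd
    · exact s3 _ _ _ _ (h _ _ _ _ hab hbd hcd)
    rcases le_total a d with had | had
    · exact s3 _ _ _ _ (s2 _ _ _ _ (h _ _ _ _ had hbd hbc))
    · exact s3 _ _ _ _ (s2 _ _ _ _ (s1 _ _ _ _ (h _ _ _ _ had hab hbc)))
  have h2 : ∀ a b c d, a ≤ b → P a b c d := by
    intro a b c d hab
    rcases le_total b c with hbc | hbc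
    · exact h1 _ _ _ _ hab hbc
    rcases le_total a c with hac | hac
    · exact s2 _ _ _ _ (h1 _ _ _ _ hac hbc)
    · exact s2 _ _ _ _ (s1 _ _ _ _ (h1 _ _ _ _ hac hab))
  intro a b c d
  rcases le_total a b with hab | hab
  · exact h2 _ _ _ _ hab
  · exact s1 _ _ _ _ (h2 _ _ _ _ hab)

theorem pf4_eq_zero_of_sorted {B : Fin m → Fin m → ℂ} (hB : ∀ i j, B j i = -B i j)
    (h : ∀ a b c d, a < b → b < c → c < d → pf4 B a b c d = 0) :
    ∀ a b c d, pf4 B a b c d = 0 := by
  apply all_of_sorted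
  · intro a b c d h
    simp only [pf4, hB a b] at h ⊢
    linear_combination -h
  · intro a b c d h
    simp only [pf4, hB b c] at h ⊢
    linear_combination -h
  · intro a b c d h
    simp only [pf4, hB c d] at h ⊢
    linear_combination -h
  · intro a b c d hab hbc hcd
    rcases hab.eq_or_lt with rfl | hab
    · simp only [pf4, diag_zero hB]; ring
    rcases hbc.eq_or_lt with rfl | hbc
    · simp only [pf4, diag_zero hB]; ring
    rcases hcd.eq_or_lt with rfl | hcd
    · simp only [pf4, diag_zero hB]; ring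
    exact h _ _ _ _ hab hbc hcd

theorem fderiv_of_quadratic {f : (Fin m → ℂ) → ℂ} {u w : Fin m → ℂ} {D C : ℂ}
    (hf : DifferentiableAt ℂ f u) (h : ∀ t : ℂ, f (u + t • w) = f u + t * D + t ^ 2 * C) :
    fderiv ℂ f u w = D := by
  have h1 : HasDerivAt (fun t : ℂ => u + t • w) w 0 := by
    simpa using ((hasDerivAt_id (0 : ℂ)).smul_const w).const_add u
  have h2 : HasDerivAt (fun t : ℂ => f (u + t • w)) (fderiv ℂ f u w) 0 := by
    have h3 : HasFDerivAt f (fderiv ℂ f u) (u + (0 : ℂ) • w) := by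
      rw [zero_smul, add_zero]; exact hf.hasFDerivAt
    exact h3.comp_hasDerivAt (0 : ℂ) h1
  have h4 : HasDerivAt (fun t : ℂ => f u + t * D + t ^ 2 * C) D 0 := by
    have := (((hasDerivAt_id (0 : ℂ)).mul_const D).const_add (f u)).fun_add
      ((hasDerivAt_pow 2 (0 : ℂ)).mul_const C)
    exact this.congr_deriv (by simp)
  rw [funext h] at h2
  exact h2.unique h4

end Pool.Agent.Lib.MP_77e77d_ag
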