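import Mathlib
import Pool.Agent.Lib.MP_77e77d_ag.Rank

/-!
The Feigin-Odesskii elliptic Poisson bracket `q_{5,1}(E)` on `ℂ^5` for the elliptic normal quintic
`E` cut out by the quadrics `x_i^2 + x_(i+2) x_(i+3) - x_(i+1) x_(i+4)`.
-/

set_option autoImplicit false
set_option linter.unusedSimpArgs false

namespace Pool.Agent.Lib.MP_77e77d_ag

open scoped ContDiff

theorem fin5_cases {P : Fin 5 → Prop} (h0 : P 0) (h1 : P 1) (h2 : P 2) (h3 : P 3) (h4 : P 4) :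
    ∀ i, P i := by
  intro i
  fin_cases i
  exacts [h0, h1, h2, h3, h4]

theorem fin3_cases {P : Fin 3 → Prop} (h0 : P 0) (h1 : P 1) (h2 : P 2) : ∀ i, P i := by
  intro i
  fin_cases i
  exacts [h0, h1, h2]

/-- The Poisson tensor. -/
def Om (x : Fin 5 → ℂ) : Fin 5 → Fin 5 → ℂ :=
  ![![0,
      -4 * x 0 * x 1 + 10 * x 2 * x 4 + 5 * x 3 ^ 2,
      2 * x 0 * x 2 - 5 * x 1 ^ 2 + 10 * x 3 * x 4,
      -2 * x 0 * x 3 - 10 * x 1 * x 2 + 5 * x 4 ^ 2,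
      4 * x 0 * x 4 - 10 * x 1 * x 3 - 5 * x 2 ^ 2],
    ![4 * x 0 * x 1 - 10 * x 2 * x 4 - 5 * x 3 ^ 2,
      0,
      10 * x 0 * x 3 - 4 * x 1 * x 2 + 5 * x 4 ^ 2,
      10 * x 0 * x 4 + 2 * x 1 * x 3 - 5 * x 2 ^ 2,
      5 * x 0 ^ 2 - 2 * x 1 * x 4 - 10 * x 2 * x 3],
    ![-2 * x 0 * x 2 + 5 * x 1 ^ 2 - 10 * x 3 * x 4,
      -10 * x 0 * x 3 + 4 * x 1 * x 2 - 5 * x 4 ^ 2,
      0,
      5 * x 0 ^ 2 + 10 * x 1 * x 4 - 4 * x 2 * x 3,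
      10 * x 0 * x 1 + 2 * x 2 * x 4 - 5 * x 3 ^ 2],
    ![2 * x 0 * x 3 + 10 * x 1 * x 2 - 5 * x 4 ^ 2,
      -10 * x 0 * x 4 - 2 * x 1 * x 3 + 5 * x 2 ^ 2,
      -5 * x 0 ^ 2 - 10 * x 1 * x 4 + 4 * x 2 * x 3,
      0,
      10 * x 0 * x 2 + 5 * x 1 ^ 2 - 4 * x 3 * x 4],
    ![-4 * x 0 * x 4 + 10 * x 1 * x 3 + 5 * x 2 ^ 2,
      -5 * x 0 ^ 2 + 2 * x 1 * x 4 + 10 * x 2 * x 3,
      -10 * x 0 * x 1 - 2 * x 2 * x 4 + 5 * x 3 ^ 2,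
      -10 * x 0 * x 2 - 5 * x 1 ^ 2 + 4 * x 3 * x 4,
      0]]

/-- Its derivative at `x` in the direction `w`. -/
def DOm (x w : Fin 5 → ℂ) : Fin 5 → Fin 5 → ℂ :=
  ![![0,
      -4 * x 0 * w 1 - 4 * x 1 * w 0 + 10 * x 2 * w 4 + 10 * x 3 * w 3 + 10 * x 4 * w 2,
      2 * x 0 * w 2 - 10 * x 1 * w 1 + 2 * x 2 * w 0 + 10 * x 3 * w 4 + 10 * x 4 * w 3,
      -2 * x 0 * w 3 - 10 * x 1 * w 2 - 10 * x 2 * w 1 - 2 * x 3 * w 0 + 10 * x 4 * w 4,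
      4 * x 0 * w 4 - 10 * x 1 * w 3 - 10 * x 2 * w 2 - 10 * x 3 * w 1 + 4 * x 4 * w 0],
    ![4 * x 0 * w 1 + 4 * x 1 * w 0 - 10 * x 2 * w 4 - 10 * x 3 * w 3 - 10 * x 4 * w 2,
      0,
      10 * x 0 * w 3 - 4 * x 1 * w 2 - 4 * x 2 * w 1 + 10 * x 3 * w 0 + 10 * x 4 * w 4,
      10 * x 0 * w 4 + 2 * x 1 * w 3 - 10 * x 2 * w 2 + 2 * x 3 * w 1 + 10 * x 4 * w 0,
      10 * x 0 * w 0 - 2 * x 1 * w 4 - 10 * x 2 * w 3 - 10 * x 3 * w 2 - 2 * x 4 * w 1],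
    ![-2 * x 0 * w 2 + 10 * x 1 * w 1 - 2 * x 2 * w 0 - 10 * x 3 * w 4 - 10 * x 4 * w 3,
      -10 * x 0 * w 3 + 4 * x 1 * w 2 + 4 * x 2 * w 1 - 10 * x 3 * w 0 - 10 * x 4 * w 4,
      0,
      10 * x 0 * w 0 + 10 * x 1 * w 4 - 4 * x 2 * w 3 - 4 * x 3 * w 2 + 10 * x 4 * w 1,
      10 * x 0 * w 1 + 10 * x 1 * w 0 + 2 * x 2 * w 4 - 10 * x 3 * w 3 + 2 * x 4 * w 2],
    ![2 * x 0 * w 3 + 10 * x 1 * w 2 + 10 * x 2 * w 1 + 2 * x 3 * w 0 - 10 * x 4 * w 4,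
      -10 * x 0 * w 4 - 2 * x 1 * w 3 + 10 * x 2 * w 2 - 2 * x 3 * w 1 - 10 * x 4 * w 0,
      -10 * x 0 * w 0 - 10 * x 1 * w 4 + 4 * x 2 * w 3 + 4 * x 3 * w 2 - 10 * x 4 * w 1,
      0,
      10 * x 0 * w 2 + 10 * x 1 * w 1 + 10 * x 2 * w 0 - 4 * x 3 * w 4 - 4 * x 4 * w 3],
    ![-4 * x 0 * w 4 + 10 * x 1 * w 3 + 10 * x 2 * w 2 + 10 * x 3 * w 1 - 4 * x 4 * w 0,
      -10 * x 0 * w 0 + 2 * x 1 * w 4 + 10 * x 2 * w 3 + 10 * x 3 * w 2 + 2 * x 4 * w 1,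
      -10 * x 0 * w 1 - 10 * x 1 * w 0 - 2 * x 2 * w 4 + 10 * x 3 * w 3 - 2 * x 4 * w 2,
      -10 * x 0 * w 2 - 10 * x 1 * w 1 - 10 * x 2 * w 0 + 4 * x 3 * w 4 + 4 * x 4 * w 3,
      0]]

/-- The quadrics cutting out the elliptic quintic. -/
def qq (x : Fin 5 → ℂ) : Fin 5 → ℂ :=
  ![x 0 ^ 2 - x 1 * x 4 + x 2 * x 3,
    -x 0 * x 2 + x 1 ^ 2 + x 3 * x 4,
    x 0 * x 4 - x 1 * x 3 + x 2 ^ 2,
    x 0 * x 1 - x 2 * x 4 + x 3 ^ 2,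
    -x 0 * x 3 + x 1 * x 2 + x 4 ^ 2]

/-- Their derivatives. -/
def Dq (x w : Fin 5 → ℂ) : Fin 5 → ℂ :=
  ![2 * x 0 * w 0 - x 1 * w 4 + x 2 * w 3 + x 3 * w 2 - x 4 * w 1,
    -x 0 * w 2 + 2 * x 1 * w 1 - x 2 * w 0 + x 3 * w 4 + x 4 * w 3,
    x 0 * w 4 - x 1 * w 3 + 2 * x 2 * w 2 - x 3 * w 1 + x 4 * w 0,
    x 0 * w 1 + x 1 * w 0 - x 2 * w 4 + 2 * x 3 * w 3 - x 4 * w 2,
    -x 0 * w 3 + x 1 * w 2 + x 2 * w 1 - x 3 * w 0 + 2 * x 4 * w 4]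

theorem Om_00 (x : Fin 5 → ℂ) : Om x 0 0 = 0 := rfl
theorem DOm_00 (x w : Fin 5 → ℂ) : DOm x w 0 0 =
    0 := rfl
theorem Om_01 (x : Fin 5 → ℂ) : Om x 0 1 = -4 * x 0 * x 1 + 10 * x 2 * x 4 + 5 * x 3 ^ 2 := rfl
theorem DOm_01 (x w : Fin 5 → ℂ) : DOm x w 0 1 =
    -4 * x 0 * w 1 - 4 * x 1 * w 0 + 10 * x 2 * w 4 + 10 * x 3 * w 3 + 10 * x 4 * w 2 := rfl
theorem Om_02 (x : Fin 5 → ℂ) : Om x 0 2 = 2 * x 0 * x 2 - 5 * x 1 ^ 2 + 10 * x 3 * x 4 := rfl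
theorem DOm_02 (x w : Fin 5 → ℂ) : DOm x w 0 2 =
    2 * x 0 * w 2 - 10 * x 1 * w 1 + 2 * x 2 * w 0 + 10 * x 3 * w 4 + 10 * x 4 * w 3 := rfl
theorem Om_03 (x : Fin 5 → ℂ) : Om x 0 3 = -2 * x 0 * x 3 - 10 * x 1 * x 2 + 5 * x 4 ^ 2 := rfl
theorem DOm_03 (x w : Fin 5 → ℂ) : DOm x w 0 3 =
    -2 * x 0 * w 3 - 10 * x 1 * w 2 - 10 * x 2 * w 1 - 2 * x 3 * w 0 + 10 * x 4 * w 4 := rfl
theorem Om_04 (x : Fin 5 → ℂ) : Om x 0 4 = 4 * x 0 * x 4 - 10 * x 1 * x 3 - 5 * x 2 ^ 2 := rfl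
theorem DOm_04 (x w : Fin 5 → ℂ) : DOm x w 0 4 =
    4 * x 0 * w 4 - 10 * x 1 * w 3 - 10 * x 2 * w 2 - 10 * x 3 * w 1 + 4 * x 4 * w 0 := rfl
theorem Om_10 (x : Fin 5 → ℂ) : Om x 1 0 = 4 * x 0 * x 1 - 10 * x 2 * x 4 - 5 * x 3 ^ 2 := rfl
theorem DOm_10 (x w : Fin 5 → ℂ) : DOm x w 1 0 =
    4 * x 0 * w 1 + 4 * x 1 * w 0 - 10 * x 2 * w 4 - 10 * x 3 * w 3 - 10 * x 4 * w 2 := rfl
theorem Om_11 (x : Fin 5 → ℂ) : Om x 1 1 = 0 := rfl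
theorem DOm_11 (x w : Fin 5 → ℂ) : DOm x w 1 1 =
    0 := rfl
theorem Om_12 (x : Fin 5 → ℂ) : Om x 1 2 = 10 * x 0 * x 3 - 4 * x 1 * x 2 + 5 * x 4 ^ 2 := rfl
theorem DOm_12 (x w : Fin 5 → ℂ) : DOm x w 1 2 =
    10 * x 0 * w 3 - 4 * x 1 * w 2 - 4 * x 2 * w 1 + 10 * x 3 * w 0 + 10 * x 4 * w 4 := rfl
theorem Om_13 (x : Fin 5 → ℂ) : Om x 1 3 = 10 * x 0 * x 4 + 2 * x 1 * x 3 - 5 * x 2 ^ 2 := rfl
theorem DOm_13 (x w : Fin 5 → ℂ) : DOm x w 1 3 =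
    10 * x 0 * w 4 + 2 * x 1 * w 3 - 10 * x 2 * w 2 + 2 * x 3 * w 1 + 10 * x 4 * w 0 := rfl
theorem Om_14 (x : Fin 5 → ℂ) : Om x 1 4 = 5 * x 0 ^ 2 - 2 * x 1 * x 4 - 10 * x 2 * x 3 := rfl
theorem DOm_14 (x w : Fin 5 → ℂ) : DOm x w 1 4 =
    10 * x 0 * w 0 - 2 * x 1 * w 4 - 10 * x 2 * w 3 - 10 * x 3 * w 2 - 2 * x 4 * w 1 := rfl
theorem Om_20 (x : Fin 5 → ℂ) : Om x 2 0 = -2 * x 0 * x 2 + 5 * x 1 ^ 2 - 10 * x 3 * x 4 := rfl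
theorem DOm_20 (x w : Fin 5 → ℂ) : DOm x w 2 0 =
    -2 * x 0 * w 2 + 10 * x 1 * w 1 - 2 * x 2 * w 0 - 10 * x 3 * w 4 - 10 * x 4 * w 3 := rfl
theorem Om_21 (x : Fin 5 → ℂ) : Om x 2 1 = -10 * x 0 * x 3 + 4 * x 1 * x 2 - 5 * x 4 ^ 2 := rfl
theorem DOm_21 (x w : Fin 5 → ℂ) : DOm x w 2 1 =
    -10 * x 0 * w 3 + 4 * x 1 * w 2 + 4 * x 2 * w 1 - 10 * x 3 * w 0 - 10 * x 4 * w 4 := rfl
theorem Om_22 (x : Fin 5 → ℂ) : Om x 2 2 = 0 := rfl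
theorem DOm_22 (x w : Fin 5 → ℂ) : DOm x w 2 2 =
    0 := rfl
theorem Om_23 (x : Fin 5 → ℂ) : Om x 2 3 = 5 * x 0 ^ 2 + 10 * x 1 * x 4 - 4 * x 2 * x 3 := rfl
theorem DOm_23 (x w : Fin 5 → ℂ) : DOm x w 2 3 =
    10 * x 0 * w 0 + 10 * x 1 * w 4 - 4 * x 2 * w 3 - 4 * x 3 * w 2 + 10 * x 4 * w 1 := rfl
theorem Om_24 (x : Fin 5 → ℂ) : Om x 2 4 = 10 * x 0 * x 1 + 2 * x 2 * x 4 - 5 * x 3 ^ 2 := rfl
theorem DOm_24 (x w : Fin 5 → ℂ) : DOm x w 2 4 =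
    10 * x 0 * w 1 + 10 * x 1 * w 0 + 2 * x 2 * w 4 - 10 * x 3 * w 3 + 2 * x 4 * w 2 := rfl
theorem Om_30 (x : Fin 5 → ℂ) : Om x 3 0 = 2 * x 0 * x 3 + 10 * x 1 * x 2 - 5 * x 4 ^ 2 := rfl
theorem DOm_30 (x w : Fin 5 → ℂ) : DOm x w 3 0 =
    2 * x 0 * w 3 + 10 * x 1 * w 2 + 10 * x 2 * w 1 + 2 * x 3 * w 0 - 10 * x 4 * w 4 := rfl
theorem Om_31 (x : Fin 5 → ℂ) : Om x 3 1 = -10 * x 0 * x 4 - 2 * x 1 * x 3 + 5 * x 2 ^ 2 := rfl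
theorem DOm_31 (x w : Fin 5 → ℂ) : DOm x w 3 1 =
    -10 * x 0 * w 4 - 2 * x 1 * w 3 + 10 * x 2 * w 2 - 2 * x 3 * w 1 - 10 * x 4 * w 0 := rfl
theorem Om_32 (x : Fin 5 → ℂ) : Om x 3 2 = -5 * x 0 ^ 2 - 10 * x 1 * x 4 + 4 * x 2 * x 3 := rfl
theorem DOm_32 (x w : Fin 5 → ℂ) : DOm x w 3 2 =
    -10 * x 0 * w 0 - 10 * x 1 * w 4 + 4 * x 2 * w 3 + 4 * x 3 * w 2 - 10 * x 4 * w 1 := rfl
theorem Om_33 (x : Fin 5 → ℂ) : Om x 3 3 = 0 := rfl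
theorem DOm_33 (x w : Fin 5 → ℂ) : DOm x w 3 3 =
    0 := rfl
theorem Om_34 (x : Fin 5 → ℂ) : Om x 3 4 = 10 * x 0 * x 2 + 5 * x 1 ^ 2 - 4 * x 3 * x 4 := rfl
theorem DOm_34 (x w : Fin 5 → ℂ) : DOm x w 3 4 =
    10 * x 0 * w 2 + 10 * x 1 * w 1 + 10 * x 2 * w 0 - 4 * x 3 * w 4 - 4 * x 4 * w 3 := rfl
theorem Om_40 (x : Fin 5 → ℂ) : Om x 4 0 = -4 * x 0 * x 4 + 10 * x 1 * x 3 + 5 * x 2 ^ 2 := rfl
theorem DOm_40 (x w : Fin 5 → ℂ) : DOm x w 4 0 =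
    -4 * x 0 * w 4 + 10 * x 1 * w 3 + 10 * x 2 * w 2 + 10 * x 3 * w 1 - 4 * x 4 * w 0 := rfl
theorem Om_41 (x : Fin 5 → ℂ) : Om x 4 1 = -5 * x 0 ^ 2 + 2 * x 1 * x 4 + 10 * x 2 * x 3 := rfl
theorem DOm_41 (x w : Fin 5 → ℂ) : DOm x w 4 1 =
    -10 * x 0 * w 0 + 2 * x 1 * w 4 + 10 * x 2 * w 3 + 10 * x 3 * w 2 + 2 * x 4 * w 1 := rfl
theorem Om_42 (x : Fin 5 → ℂ) : Om x 4 2 = -10 * x 0 * x 1 - 2 * x 2 * x 4 + 5 * x 3 ^ 2 := rfl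
theorem DOm_42 (x w : Fin 5 → ℂ) : DOm x w 4 2 =
    -10 * x 0 * w 1 - 10 * x 1 * w 0 - 2 * x 2 * w 4 + 10 * x 3 * w 3 - 2 * x 4 * w 2 := rfl
theorem Om_43 (x : Fin 5 → ℂ) : Om x 4 3 = -10 * x 0 * x 2 - 5 * x 1 ^ 2 + 4 * x 3 * x 4 := rfl
theorem DOm_43 (x w : Fin 5 → ℂ) : DOm x w 4 3 =
    -10 * x 0 * w 2 - 10 * x 1 * w 1 - 10 * x 2 * w 0 + 4 * x 3 * w 4 + 4 * x 4 * w 3 := rfl
theorem Om_44 (x : Fin 5 → ℂ) : Om x 4 4 = 0 := rfl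
theorem DOm_44 (x w : Fin 5 → ℂ) : DOm x w 4 4 =
    0 := rfl
theorem qq_0 (x : Fin 5 → ℂ) : qq x 0 = x 0 ^ 2 - x 1 * x 4 + x 2 * x 3 := rfl
theorem Dq_0 (x w : Fin 5 → ℂ) : Dq x w 0 = 2 * x 0 * w 0 - x 1 * w 4 + x 2 * w 3 + x 3 * w 2 - x 4 * w 1 := rfl
theorem qq_1 (x : Fin 5 → ℂ) : qq x 1 = -x 0 * x 2 + x 1 ^ 2 + x 3 * x 4 := rfl
theorem Dq_1 (x w : Fin 5 → ℂ) : Dq x w 1 = -x 0 * w 2 + 2 * x 1 * w 1 - x 2 * w 0 + x 3 * w 4 + x 4 * w 3 := rfl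
theorem qq_2 (x : Fin 5 → ℂ) : qq x 2 = x 0 * x 4 - x 1 * x 3 + x 2 ^ 2 := rfl
theorem Dq_2 (x w : Fin 5 → ℂ) : Dq x w 2 = x 0 * w 4 - x 1 * w 3 + 2 * x 2 * w 2 - x 3 * w 1 + x 4 * w 0 := rfl
theorem qq_3 (x : Fin 5 → ℂ) : qq x 3 = x 0 * x 1 - x 2 * x 4 + x 3 ^ 2 := rfl
theorem Dq_3 (x w : Fin 5 → ℂ) : Dq x w 3 = x 0 * w 1 + x 1 * w 0 - x 2 * w 4 + 2 * x 3 * w 3 - x 4 * w 2 := rfl
theorem qq_4 (x : Fin 5 → ℂ) : qq x 4 = -x 0 * x 3 + x 1 * x 2 + x 4 ^ 2 := rfl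
theorem Dq_4 (x w : Fin 5 → ℂ) : Dq x w 4 = -x 0 * w 3 + x 1 * w 2 + x 2 * w 1 - x 3 * w 0 + 2 * x 4 * w 4 := rfl

theorem Om_skew (x : Fin 5 → ℂ) : ∀ i j, Om x j i = -Om x i j := by
  apply fin5_cases <;> apply fin5_cases <;> simp only [Om_00, Om_01, Om_02, Om_03, Om_04, Om_10, Om_11, Om_12, Om_13, Om_14, Om_20, Om_21, Om_22, Om_23, Om_24, Om_30, Om_31, Om_32, Om_33, Om_34, Om_40, Om_41, Om_42, Om_43, Om_44] <;> ring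

theorem Om_smul (c : ℂ) (x : Fin 5 → ℂ) : ∀ i j, Om (c • x) i j = c ^ 2 * Om x i j := by
  apply fin5_cases <;> apply fin5_cases <;>
    simp only [Om_00, Om_01, Om_02, Om_03, Om_04, Om_10, Om_11, Om_12, Om_13, Om_14, Om_20, Om_21, Om_22, Om_23, Om_24, Om_30, Om_31, Om_32, Om_33, Om_34, Om_40, Om_41, Om_42, Om_43, Om_44, Pi.smul_apply, smul_eq_mul] <;> ring

theorem qq_smul (c : ℂ) (x : Fin 5 → ℂ) : ∀ i, qq (c • x) i = c ^ 2 * qq x i := by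
  apply fin5_cases <;> simp only [qq_0, qq_1, qq_2, qq_3, qq_4, Pi.smul_apply, smul_eq_mul] <;> ring

theorem Om_contDiff : ∀ i j, ContDiff ℂ ω (fun u : Fin 5 → ℂ => Om u i j) := by
  apply fin5_cases <;> apply fin5_cases <;> simp only [Om_00, Om_01, Om_02, Om_03, Om_04, Om_10, Om_11, Om_12, Om_13, Om_14, Om_20, Om_21, Om_22, Om_23, Om_24, Om_30, Om_31, Om_32, Om_33, Om_34, Om_40, Om_41, Om_42, Om_43, Om_44] <;> fun_prop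

theorem qq_contDiff : ∀ i, ContDiff ℂ ω (fun u : Fin 5 → ℂ => qq u i) := by
  apply fin5_cases <;> simp only [qq_0, qq_1, qq_2, qq_3, qq_4] <;> fun_prop

theorem Om_expand (x w : Fin 5 → ℂ) (t : ℂ) : ∀ i j,
    Om (x + t • w) i j = Om x i j + t * DOm x w i j + t ^ 2 * Om w i j := by
  apply fin5_cases <;> apply fin5_cases <;>
    simp only [Om_00, Om_01, Om_02, Om_03, Om_04, Om_10, Om_11, Om_12, Om_13, Om_14, Om_20, Om_21, Om_22, Om_23, Om_24, Om_30, Om_31, Om_32, Om_33, Om_34, Om_40, Om_41, Om_42, Om_43, Om_44, DOm_00, DOm_01, DOm_02, DOm_03, DOm_04, DOm_10, DOm_11, DOm_12, DOm_13, DOm_14, DOm_20, DOm_21, DOm_22, DOm_23, DOm_24, DOm_30, DOm_31, DOm_32, DOm_33, DOm_34, DOm_40, DOm_41, DOm_42, DOm_43, DOm_44, Pi.add_apply, Pi.smul_apply, smul_eq_mul] <;> ring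

theorem qq_expand (x w : Fin 5 → ℂ) (t : ℂ) : ∀ i,
    qq (x + t • w) i = qq x i + t * Dq x w i + t ^ 2 * qq w i := by
  apply fin5_cases <;>
    simp only [qq_0, qq_1, qq_2, qq_3, qq_4, Dq_0, Dq_1, Dq_2, Dq_3, Dq_4, Pi.add_apply, Pi.smul_apply, smul_eq_mul] <;> ring

theorem fderiv_Om (x w : Fin 5 → ℂ) (i j : Fin 5) :
    fderiv ℂ (fun u => Om u i j) x w = DOm x w i j :=
  fderiv_of_quadratic ((Om_contDiff i j).differentiable (by simp) x) fun t => Om_expand x w t i j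

theorem fderiv_qq (x w : Fin 5 → ℂ) (i : Fin 5) :
    fderiv ℂ (fun u => qq u i) x w = Dq x w i :=
  fderiv_of_quadratic ((qq_contDiff i).differentiable (by simp) x) fun t => qq_expand x w t i

theorem jac_0 (x : Fin 5 → ℂ) : ∀ j k,
    DOm x (Om x 0) j k + DOm x (Om x j) k 0 + DOm x (Om x k) 0 j = 0 := by
  apply fin5_cases <;> apply fin5_cases <;>
    simp only [Om_00, Om_01, Om_02, Om_03, Om_04, Om_10, Om_11, Om_12, Om_13, Om_14, Om_20, Om_21, Om_22, Om_23, Om_24, Om_30, Om_31, Om_32, Om_33, Om_34, Om_40, Om_41, Om_42, Om_43, Om_44, DOm_00, DOm_01, DOm_02, DOm_03, DOm_04, DOm_10, DOm_11, DOm_12, DOm_13, DOm_14, DOm_20, DOm_21, DOm_22, DOm_23, DOm_24, DOm_30, DOm_31, DOm_32, DOm_33, DOm_34, DOm_40, DOm_41, DOm_42, DOm_43, DOm_44] <;> ring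

theorem jac_1 (x : Fin 5 → ℂ) : ∀ j k,
    DOm x (Om x 1) j k + DOm x (Om x j) k 1 + DOm x (Om x k) 1 j = 0 := by
  apply fin5_cases <;> apply fin5_cases <;>
    simp only [Om_00, Om_01, Om_02, Om_03, Om_04, Om_10, Om_11, Om_12, Om_13, Om_14, Om_20, Om_21, Om_22, Om_23, Om_24, Om_30, Om_31, Om_32, Om_33, Om_34, Om_40, Om_41, Om_42, Om_43, Om_44, DOm_00, DOm_01, DOm_02, DOm_03, DOm_04, DOm_10, DOm_11, DOm_12, DOm_13, DOm_14, DOm_20, DOm_21, DOm_22, DOm_23, DOm_24, DOm_30, DOm_31, DOm_32, DOm_33, DOm_34, DOm_40, DOm_41, DOm_42, DOm_43, DOm_44] <;> ring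

theorem jac_2 (x : Fin 5 → ℂ) : ∀ j k,
    DOm x (Om x 2) j k + DOm x (Om x j) k 2 + DOm x (Om x k) 2 j = 0 := by
  apply fin5_cases <;> apply fin5_cases <;>
    simp only [Om_00, Om_01, Om_02, Om_03, Om_04, Om_10, Om_11, Om_12, Om_13, Om_14, Om_20, Om_21, Om_22, Om_23, Om_24, Om_30, Om_31, Om_32, Om_33, Om_34, Om_40, Om_41, Om_42, Om_43, Om_44, DOm_00, DOm_01, DOm_02, DOm_03, DOm_04, DOm_10, DOm_11, DOm_12, DOm_13, DOm_14, DOm_20, DOm_21, DOm_22, DOm_23, DOm_24, DOm_30, DOm_31, DOm_32, DOm_33, DOm_34, DOm_40, DOm_41, DOm_42, DOm_43, DOm_44] <;> ring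

theorem jac_3 (x : Fin 5 → ℂ) : ∀ j k,
    DOm x (Om x 3) j k + DOm x (Om x j) k 3 + DOm x (Om x k) 3 j = 0 := by
  apply fin5_cases <;> apply fin5_cases <;>
    simp only [Om_00, Om_01, Om_02, Om_03, Om_04, Om_10, Om_11, Om_12, Om_13, Om_14, Om_20, Om_21, Om_22, Om_23, Om_24, Om_30, Om_31, Om_32, Om_33, Om_34, Om_40, Om_41, Om_42, Om_43, Om_44, DOm_00, DOm_01, DOm_02, DOm_03, DOm_04, DOm_10, DOm_11, DOm_12, DOm_13, DOm_14, DOm_20, DOm_21, DOm_22, DOm_23, DOm_24, DOm_30, DOm_31, DOm_32, DOm_33, DOm_34, DOm_40, DOm_41, DOm_42, DOm_43, DOm_44] <;> ring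

theorem jac_4 (x : Fin 5 → ℂ) : ∀ j k,
    DOm x (Om x 4) j k + DOm x (Om x j) k 4 + DOm x (Om x k) 4 j = 0 := by
  apply fin5_cases <;> apply fin5_cases <;>
    simp only [Om_00, Om_01, Om_02, Om_03, Om_04, Om_10, Om_11, Om_12, Om_13, Om_14, Om_20, Om_21, Om_22, Om_23, Om_24, Om_30, Om_31, Om_32, Om_33, Om_34, Om_40, Om_41, Om_42, Om_43, Om_44, DOm_00, DOm_01, DOm_02, DOm_03, DOm_04, DOm_10, DOm_11, DOm_12, DOm_13, DOm_14, DOm_20, DOm_21, DOm_22, DOm_23, DOm_24, DOm_30, DOm_31, DOm_32, DOm_33, DOm_34, DOm_40, DOm_41, DOm_42, DOm_43, DOm_44] <;> ring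

theorem Om_jacobi (v : Fin 5 → ℂ) (i j k : Fin 5) :
    (∑ l, Om v i l * fderiv ℂ (fun u => Om u j k) v (Pi.single l 1)) +
      (∑ l, Om v j l * fderiv ℂ (fun u => Om u k i) v (Pi.single l 1)) +
      (∑ l, Om v k l * fderiv ℂ (fun u => Om u i j) v (Pi.single l 1)) = 0 := by
  rw [← clm_apply_eq_sum, ← clm_apply_eq_sum, ← clm_apply_eq_sum, fderiv_Om, fderiv_Om, fderiv_Om]
  revert i
  exact fin5_cases (jac_0 v j k) (jac_1 v j k) (jac_2 v j k) (jac_3 v j k) (jac_4 v j k)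

theorem pf_0 (x : Fin 5 → ℂ) : pf4 (Om x) 1 2 3 4 =
    5 * (5 * qq x 0 ^ 2 - 4 * qq x 1 * qq x 4 - 2 * qq x 2 * qq x 3) := by
  simp only [pf4, Om_00, Om_01, Om_02, Om_03, Om_04, Om_10, Om_11, Om_12, Om_13, Om_14, Om_20, Om_21, Om_22, Om_23, Om_24, Om_30, Om_31, Om_32, Om_33, Om_34, Om_40, Om_41, Om_42, Om_43, Om_44, qq_0, qq_1, qq_2, qq_3, qq_4]; ring

theorem pf_1 (x : Fin 5 → ℂ) : pf4 (Om x) 0 2 3 4 =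
    -5 * (5 * qq x 1 ^ 2 - 4 * qq x 2 * qq x 0 - 2 * qq x 3 * qq x 4) := by
  simp only [pf4, Om_00, Om_01, Om_02, Om_03, Om_04, Om_10, Om_11, Om_12, Om_13, Om_14, Om_20, Om_21, Om_22, Om_23, Om_24, Om_30, Om_31, Om_32, Om_33, Om_34, Om_40, Om_41, Om_42, Om_43, Om_44, qq_0, qq_1, qq_2, qq_3, qq_4]; ring

theorem pf_2 (x : Fin 5 → ℂ) : pf4 (Om x) 0 1 3 4 =
    5 * (5 * qq x 2 ^ 2 - 4 * qq x 3 * qq x 1 - 2 * qq x 4 * qq x 0) := by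
  simp only [pf4, Om_00, Om_01, Om_02, Om_03, Om_04, Om_10, Om_11, Om_12, Om_13, Om_14, Om_20, Om_21, Om_22, Om_23, Om_24, Om_30, Om_31, Om_32, Om_33, Om_34, Om_40, Om_41, Om_42, Om_43, Om_44, qq_0, qq_1, qq_2, qq_3, qq_4]; ring

theorem pf_3 (x : Fin 5 → ℂ) : pf4 (Om x) 0 1 2 4 =
    -5 * (5 * qq x 3 ^ 2 - 4 * qq x 4 * qq x 2 - 2 * qq x 0 * qq x 1) := by
  simp only [pf4, Om_00, Om_01, Om_02, Om_03, Om_04, Om_10, Om_11, Om_12, Om_13, Om_14, Om_20, Om_21, Om_22, Om_23, Om_24, Om_30, Om_31, Om_32, Om_33, Om_34, Om_40, Om_41, Om_42, Om_43, Om_44, qq_0, qq_1, qq_2, qq_3, qq_4]; ring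

theorem pf_4 (x : Fin 5 → ℂ) : pf4 (Om x) 0 1 2 3 =
    5 * (5 * qq x 4 ^ 2 - 4 * qq x 0 * qq x 3 - 2 * qq x 1 * qq x 2) := by
  simp only [pf4, Om_00, Om_01, Om_02, Om_03, Om_04, Om_10, Om_11, Om_12, Om_13, Om_14, Om_20, Om_21, Om_22, Om_23, Om_24, Om_30, Om_31, Om_32, Om_33, Om_34, Om_40, Om_41, Om_42, Om_43, Om_44, qq_0, qq_1, qq_2, qq_3, qq_4]; ring

theorem no_common_zero {y0 y1 y2 y3 y4 : ℂ}
    (h0 : 5 * y0 ^ 2 - 4 * y1 * y4 - 2 * y2 * y3 = 0)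
    (h1 : 5 * y1 ^ 2 - 4 * y2 * y0 - 2 * y3 * y4 = 0)
    (h2 : 5 * y2 ^ 2 - 4 * y3 * y1 - 2 * y4 * y0 = 0)
    (h3 : 5 * y3 ^ 2 - 4 * y4 * y2 - 2 * y0 * y1 = 0)
    (h4 : 5 * y4 ^ 2 - 4 * y0 * y3 - 2 * y1 * y2 = 0)
    : y0 = 0 := by
  apply pow_eq_zero_iff (n := 6) (by norm_num) |>.mp
  linear_combination ((1 / 5) * y0 ^ 4 + (77524 / 483153) * y0 ^ 2 * y1 * y4 - (180398 / 483153) * y0 ^ 2 * y2 * y3 + (87320 / 161051) * y0 * y1 ^ 2 * y3 - (21312 / 73205) * y0 * y2 * y4 ^ 2 - (185000 / 483153) * y1 ^ 3 * y2 + (5920 / 14641) * y1 ^ 2 * y4 ^ 2 - (59200 / 483153) * y3 * y4 ^ 3) * h0 +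
    (-(250088 / 483153) * y0 ^ 3 * y3 + (173672 / 483153) * y0 ^ 2 * y1 * y2 - (20128 / 73205) * y0 ^ 2 * y4 ^ 2 - (23680 / 483153) * y0 * y1 ^ 3 + (21312 / 73205) * y0 * y2 ^ 2 * y4 - (5920 / 14641) * y1 ^ 2 * y2 * y4 + (4736 / 14641) * y1 * y4 ^ 3) * h1 +
    ((3236192 / 12078825) * y0 ^ 3 * y1 + (85248 / 366025) * y0 ^ 2 * y2 * y4 - (360796 / 2415765) * y0 ^ 2 * y3 ^ 2 - (71040 / 161051) * y0 * y1 ^ 2 * y4 - (74000 / 483153) * y1 ^ 3 * y3 - (18944 / 483153) * y4 ^ 4) * h2 +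
    (-(26632 / 99825) * y0 ^ 3 * y4 - (1443184 / 12078825) * y0 ^ 2 * y1 * y3 + (34928 / 161051) * y0 * y1 ^ 2 * y2 - (59200 / 483153) * y1 ^ 4 - (23680 / 483153) * y2 * y4 ^ 3) * h3 +
    (-(10784 / 219615) * y0 ^ 3 * y2 - (85744 / 483153) * y0 ^ 2 * y1 ^ 2 - (37888 / 2415765) * y0 * y4 ^ 3) * h4

theorem qq_eq_zero_of_pf {x : Fin 5 → ℂ} (h : ∀ a b c d, pf4 (Om x) a b c d = 0) :
    ∀ i, qq x i = 0 := by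
  have h0 : 5 * qq x 0 ^ 2 - 4 * qq x 1 * qq x 4 - 2 * qq x 2 * qq x 3 = 0 := by
    have h := h 1 2 3 4
    rw [pf_0] at h
    exact (mul_eq_zero.mp h).resolve_left (by norm_num)
  have h1 : 5 * qq x 1 ^ 2 - 4 * qq x 2 * qq x 0 - 2 * qq x 3 * qq x 4 = 0 := by
    have h := h 0 2 3 4
    rw [pf_1] at h
    exact (mul_eq_zero.mp h).resolve_left (by norm_num)
  have h2 : 5 * qq x 2 ^ 2 - 4 * qq x 3 * qq x 1 - 2 * qq x 4 * qq x 0 = 0 := by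
    have h := h 0 1 3 4
    rw [pf_2] at h
    exact (mul_eq_zero.mp h).resolve_left (by norm_num)
  have h3 : 5 * qq x 3 ^ 2 - 4 * qq x 4 * qq x 2 - 2 * qq x 0 * qq x 1 = 0 := by
    have h := h 0 1 2 4
    rw [pf_3] at h
    exact (mul_eq_zero.mp h).resolve_left (by norm_num)
  have h4 : 5 * qq x 4 ^ 2 - 4 * qq x 0 * qq x 3 - 2 * qq x 1 * qq x 2 = 0 := by
    have h := h 0 1 2 3
    rw [pf_4] at h
    exact (mul_eq_zero.mp h).resolve_left (by norm_num)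
  exact fin5_cases (no_common_zero h0 h1 h2 h3 h4) (no_common_zero h1 h2 h3 h4 h0) (no_common_zero h2 h3 h4 h0 h1) (no_common_zero h3 h4 h0 h1 h2) (no_common_zero h4 h0 h1 h2 h3)

theorem pf_eq_zero_of_qq {x : Fin 5 → ℂ} (h : ∀ i, qq x i = 0) :
    ∀ a b c d, pf4 (Om x) a b c d = 0 := by
  apply pf4_eq_zero_of_sorted (Om_skew x)
  have key : ∀ a b c d : Fin 5, a < b → b < c → c < d →
      (a = 1 ∧ b = 2 ∧ c = 3 ∧ d = 4) ∨ (a = 0 ∧ b = 2 ∧ c = 3 ∧ d = 4) ∨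
      (a = 0 ∧ b = 1 ∧ c = 3 ∧ d = 4) ∨ (a = 0 ∧ b = 1 ∧ c = 2 ∧ d = 4) ∨
      (a = 0 ∧ b = 1 ∧ c = 2 ∧ d = 3) := by decide
  intro a b c d hab hbc hcd
  rcases key a b c d hab hbc hcd with ⟨rfl, rfl, rfl, rfl⟩ | ⟨rfl, rfl, rfl, rfl⟩ |
    ⟨rfl, rfl, rfl, rfl⟩ | ⟨rfl, rfl, rfl, rfl⟩ | ⟨rfl, rfl, rfl, rfl⟩
  · rw [pf_0]; simp only [h]; ring
  · rw [pf_1]; simp only [h]; ring
  · rw [pf_2]; simp only [h]; ring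
  · rw [pf_3]; simp only [h]; ring
  · rw [pf_4]; simp only [h]; ring

theorem eq_zero_of_Om {x : Fin 5 → ℂ} (h : ∀ i j, Om x i j = 0) : x = 0 := by
  have hq : ∀ i, qq x i = 0 := qq_eq_zero_of_pf fun a b c d => by simp only [pf4, h]; ring
  funext i
  apply pow_eq_zero_iff (n := 2) (by norm_num) |>.mp
  revert i
  apply fin5_cases
  · have h1 := h 1 4
    have h2 := h 2 3
    have h3 := hq 0
    simp only [Om_14, Om_23, qq_0] at h1 h2 h3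
    linear_combination (1 / 33) * h1 + (2 / 33) * h2 + (6 / 11) * h3
  · have h1 := h 2 0
    have h2 := h 3 4
    have h3 := hq 1
    simp only [Om_20, Om_34, qq_1] at h1 h2 h3
    linear_combination (1 / 33) * h1 + (2 / 33) * h2 + (6 / 11) * h3
  · have h1 := h 3 1
    have h2 := h 4 0
    have h3 := hq 2
    simp only [Om_31, Om_40, qq_2] at h1 h2 h3
    linear_combination (1 / 33) * h1 + (2 / 33) * h2 + (6 / 11) * h3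
  · have h1 := h 4 2
    have h2 := h 0 1
    have h3 := hq 3
    simp only [Om_42, Om_01, qq_3] at h1 h2 h3
    linear_combination (1 / 33) * h1 + (2 / 33) * h2 + (6 / 11) * h3
  · have h1 := h 0 3
    have h2 := h 1 2
    have h3 := hq 4
    simp only [Om_03, Om_12, qq_4] at h1 h2 h3
    linear_combination (1 / 33) * h1 + (2 / 33) * h2 + (6 / 11) * h3

/-- The three quadrics that cut out the cone where `x k ≠ 0`. -/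
def QQ (k : Fin 5) (x : Fin 5 → ℂ) : Fin 3 → ℂ := ![qq x k, qq x (k + 2), qq x (k + 3)]

theorem local_eq_0 {x : Fin 5 → ℂ} (hk : x 0 ≠ 0) (h0 : qq x 0 = 0) (h1 : qq x 2 = 0)
    (h2 : qq x 3 = 0) : ∀ i, qq x i = 0 := by
  have g1 : qq x 1 = 0 := by
    apply mul_left_cancel₀ hk
    simp only [qq_0, qq_1, qq_2, qq_3, qq_4] at h0 h1 h2 ⊢
    linear_combination (-x 2) * h0 + (x 3) * h1 + (x 1) * h2
  have g4 : qq x 4 = 0 := by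
    apply mul_left_cancel₀ hk
    simp only [qq_0, qq_1, qq_2, qq_3, qq_4] at h0 h1 h2 ⊢
    linear_combination (-x 3) * h0 + (x 4) * h1 + (x 2) * h2
  exact fin5_cases h0 g1 h1 h2 g4

theorem local_eq_1 {x : Fin 5 → ℂ} (hk : x 1 ≠ 0) (h0 : qq x 1 = 0) (h1 : qq x 3 = 0)
    (h2 : qq x 4 = 0) : ∀ i, qq x i = 0 := by
  have g2 : qq x 2 = 0 := by
    apply mul_left_cancel₀ hk
    simp only [qq_0, qq_1, qq_2, qq_3, qq_4] at h0 h1 h2 ⊢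
    linear_combination (-x 3) * h0 + (x 4) * h1 + (x 2) * h2
  have g0 : qq x 0 = 0 := by
    apply mul_left_cancel₀ hk
    simp only [qq_0, qq_1, qq_2, qq_3, qq_4] at h0 h1 h2 ⊢
    linear_combination (-x 4) * h0 + (x 0) * h1 + (x 3) * h2
  exact fin5_cases g0 h0 g2 h1 h2

theorem local_eq_2 {x : Fin 5 → ℂ} (hk : x 2 ≠ 0) (h0 : qq x 2 = 0) (h1 : qq x 4 = 0)
    (h2 : qq x 0 = 0) : ∀ i, qq x i = 0 := by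
  have g3 : qq x 3 = 0 := by
    apply mul_left_cancel₀ hk
    simp only [qq_0, qq_1, qq_2, qq_3, qq_4] at h0 h1 h2 ⊢
    linear_combination (-x 4) * h0 + (x 0) * h1 + (x 3) * h2
  have g1 : qq x 1 = 0 := by
    apply mul_left_cancel₀ hk
    simp only [qq_0, qq_1, qq_2, qq_3, qq_4] at h0 h1 h2 ⊢
    linear_combination (-x 0) * h0 + (x 1) * h1 + (x 4) * h2
  exact fin5_cases h2 g1 h0 g3 h1

theorem local_eq_3 {x : Fin 5 → ℂ} (hk : x 3 ≠ 0) (h0 : qq x 3 = 0) (h1 : qq x 0 = 0)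
    (h2 : qq x 1 = 0) : ∀ i, qq x i = 0 := by
  have g4 : qq x 4 = 0 := by
    apply mul_left_cancel₀ hk
    simp only [qq_0, qq_1, qq_2, qq_3, qq_4] at h0 h1 h2 ⊢
    linear_combination (-x 0) * h0 + (x 1) * h1 + (x 4) * h2
  have g2 : qq x 2 = 0 := by
    apply mul_left_cancel₀ hk
    simp only [qq_0, qq_1, qq_2, qq_3, qq_4] at h0 h1 h2 ⊢
    linear_combination (-x 1) * h0 + (x 2) * h1 + (x 0) * h2
  exact fin5_cases h1 h2 g2 h0 g4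

theorem local_eq_4 {x : Fin 5 → ℂ} (hk : x 4 ≠ 0) (h0 : qq x 4 = 0) (h1 : qq x 1 = 0)
    (h2 : qq x 2 = 0) : ∀ i, qq x i = 0 := by
  have g0 : qq x 0 = 0 := by
    apply mul_left_cancel₀ hk
    simp only [qq_0, qq_1, qq_2, qq_3, qq_4] at h0 h1 h2 ⊢
    linear_combination (-x 1) * h0 + (x 2) * h1 + (x 0) * h2
  have g3 : qq x 3 = 0 := by
    apply mul_left_cancel₀ hk
    simp only [qq_0, qq_1, qq_2, qq_3, qq_4] at h0 h1 h2 ⊢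
    linear_combination (-x 2) * h0 + (x 3) * h1 + (x 1) * h2
  exact fin5_cases g0 h1 h2 g3 h0

theorem QQ_eq_zero_iff {x : Fin 5 → ℂ} : ∀ k, x k ≠ 0 → (QQ k x = 0 ↔ ∀ i, qq x i = 0) := by
  have key : ∀ k, x k ≠ 0 → qq x k = 0 → qq x (k + 2) = 0 → qq x (k + 3) = 0 →
      ∀ i, qq x i = 0 :=
    fin5_cases local_eq_0 local_eq_1 local_eq_2 local_eq_3 local_eq_4
  intro k hk
  constructor
  · intro h
    exact key k hk (congrFun h 0) (congrFun h 1) (congrFun h 2)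
  · intro h
    funext r
    revert r
    exact fin3_cases (h k) (h (k + 2)) (h (k + 3))

theorem right_inv_0 {x : Fin 5 → ℂ} (h : ∀ i, qq x i = 0) (t0 t1 t2 : ℂ) :
    ∃ w : Fin 5 → ℂ, Dq x w 0 = x 0 ^ 3 * t0 ∧ Dq x w 2 = x 0 ^ 3 * t1 ∧
      Dq x w 3 = x 0 ^ 3 * t2 := by
  have h0 := h 0
  have h1 := h 1
  have h2 := h 2
  have h3 := h 3
  have h4 := h 4
  simp only [qq_0, qq_1, qq_2, qq_3, qq_4] at h0 h1 h2 h3 h4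
  obtain ⟨w0, e0⟩ : ∃ w : ℂ, w = ((2 / 11) * x 0 ^ 2 + (1 / 11) * x 1 * x 4 - (6 / 11) * x 2 * x 3) * t0 +
      ((25 / 44) * x 0 * x 1 - (25 / 22) * x 3 ^ 2) * t1 +
      ((25 / 44) * x 0 * x 4 - (25 / 22) * x 2 ^ 2) * t2 := ⟨_, rfl⟩
  obtain ⟨w1, e1⟩ : ∃ w : ℂ, w = (-(2 / 11) * x 0 * x 1 - (2 / 11) * x 2 * x 4) * t0 +
      ((3 / 2) * x 0 * x 2 - (25 / 44) * x 1 ^ 2 - (25 / 22) * x 3 * x 4) * t1 +
      (x 0 ^ 2 + (27 / 44) * x 1 * x 4 - (21 / 22) * x 2 * x 3) * t2 := ⟨_, rfl⟩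
  obtain ⟨w2, e2⟩ : ∃ w : ℂ, w = ((1 / 11) * x 1 ^ 2 + (2 / 11) * x 3 * x 4) * t0 +
      ((27 / 22) * x 0 * x 3 - (5 / 44) * x 1 * x 2) * t1 +
      ((13 / 11) * x 0 * x 1 + (25 / 44) * x 2 * x 4 - (5 / 22) * x 3 ^ 2) * t2 := ⟨_, rfl⟩
  obtain ⟨w3, e3⟩ : ∃ w : ℂ, w = ((2 / 11) * x 1 * x 2 + (1 / 11) * x 4 ^ 2) * t0 +
      ((13 / 11) * x 0 * x 4 + (25 / 44) * x 1 * x 3 - (5 / 22) * x 2 ^ 2) * t1 +
      ((27 / 22) * x 0 * x 2 - (5 / 44) * x 3 * x 4) * t2 := ⟨_, rfl⟩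
  obtain ⟨w4, e4⟩ : ∃ w : ℂ, w = (-(2 / 11) * x 0 * x 4 - (2 / 11) * x 1 * x 3) * t0 +
      ((3 / 2) * x 0 ^ 2 + (5 / 44) * x 1 * x 4 - (5 / 11) * x 2 * x 3) * t1 +
      ((3 / 2) * x 0 * x 3 - (25 / 22) * x 1 * x 2 - (25 / 44) * x 4 ^ 2) * t2 := ⟨_, rfl⟩
  refine ⟨![w0, w1, w2, w3, w4], ?_, ?_, ?_⟩
  · simp only [Dq_0, Matrix.cons_val, e0, e1, e2, e3, e4]
    linear_combination ((-(7 / 11) * x 0) * t0 + ((15 / 22) * x 1) * t1 + ((1 / 22) * x 4) * t2) * h0 +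
      (((5 / 11) * x 3) * t0 + ((25 / 22) * x 4) * t1 + ((25 / 22) * x 2) * t2) * h1 +
      (((2 / 11) * x 1) * t0 + (-(5 / 22) * x 2) * t1 + ((1 / 11) * x 0) * t2) * h2 +
      ((-(3 / 11) * x 4) * t0 + (-(23 / 22) * x 0) * t1 + (-(5 / 22) * x 3) * t2) * h3
  · simp only [Dq_2, Matrix.cons_val, e0, e1, e2, e3, e4]
    linear_combination (((1 / 2) * x 0) * t1 + ((1 / 2) * x 3) * t2) * h0
  · simp only [Dq_3, Matrix.cons_val, e0, e1, e2, e3, e4]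
    linear_combination 0 * h0

theorem right_inv_1 {x : Fin 5 → ℂ} (h : ∀ i, qq x i = 0) (t0 t1 t2 : ℂ) :
    ∃ w : Fin 5 → ℂ, Dq x w 1 = x 1 ^ 3 * t0 ∧ Dq x w 3 = x 1 ^ 3 * t1 ∧
      Dq x w 4 = x 1 ^ 3 * t2 := by
  have h0 := h 0
  have h1 := h 1
  have h2 := h 2
  have h3 := h 3
  have h4 := h 4
  simp only [qq_0, qq_1, qq_2, qq_3, qq_4] at h0 h1 h2 h3 h4
  obtain ⟨w0, e0⟩ : ∃ w : ℂ, w = (-(2 / 11) * x 0 * x 1 - (2 / 11) * x 2 * x 4) * t0 +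
      ((13 / 66) * x 0 * x 2 + x 1 ^ 2 - (4 / 33) * x 3 * x 4) * t1 +
      (-(5 / 33) * x 0 ^ 2 + (2 / 3) * x 1 * x 4 - (10 / 33) * x 2 * x 3) * t2 := ⟨_, rfl⟩
  obtain ⟨w1, e1⟩ : ∃ w : ℂ, w = ((1 / 11) * x 0 * x 2 + (2 / 11) * x 1 ^ 2 - (6 / 11) * x 3 * x 4) * t0 +
      ((1 / 3) * x 0 * x 3 + (7 / 22) * x 1 * x 2 - (7 / 11) * x 4 ^ 2) * t1 +
      ((16 / 33) * x 0 * x 1 - (10 / 33) * x 3 ^ 2) * t2 := ⟨_, rfl⟩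
  obtain ⟨w2, e2⟩ : ∃ w : ℂ, w = (-(2 / 11) * x 0 * x 3 - (2 / 11) * x 1 * x 2) * t0 +
      (-(7 / 11) * x 0 * x 4 + x 1 * x 3 - (7 / 22) * x 2 ^ 2) * t1 +
      ((1 / 33) * x 0 * x 2 + x 1 ^ 2 - (4 / 33) * x 3 * x 4) * t2 := ⟨_, rfl⟩
  obtain ⟨w3, e3⟩ : ∃ w : ℂ, w = ((2 / 11) * x 0 * x 4 + (1 / 11) * x 2 ^ 2) * t0 +
      ((13 / 33) * x 1 * x 4 + (3 / 22) * x 2 * x 3) * t1 +
      ((5 / 33) * x 0 * x 3 + (17 / 33) * x 1 * x 2 - (2 / 33) * x 4 ^ 2) * t2 := ⟨_, rfl⟩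
  obtain ⟨w4, e4⟩ : ∃ w : ℂ, w = ((1 / 11) * x 0 ^ 2 + (2 / 11) * x 2 * x 3) * t0 +
      ((17 / 33) * x 0 * x 1 + (7 / 22) * x 2 * x 4 - (2 / 33) * x 3 ^ 2) * t1 +
      (-(1 / 33) * x 0 * x 4 + (13 / 33) * x 1 * x 3) * t2 := ⟨_, rfl⟩
  refine ⟨![w0, w1, w2, w3, w4], ?_, ?_, ?_⟩
  · simp only [Dq_1, Matrix.cons_val, e0, e1, e2, e3, e4]
    linear_combination (((3 / 11) * x 3) * t0 + ((29 / 33) * x 4) * t1 + ((1 / 11) * x 2) * t2) * h0 +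
      ((-(7 / 11) * x 1) * t0 + (-(4 / 11) * x 2) * t1 + (-(1 / 33) * x 0) * t2) * h1 +
      (((2 / 11) * x 4) * t0 + (-(8 / 33) * x 0) * t1 + ((7 / 33) * x 3) * t2) * h2 +
      ((-(1 / 11) * x 2) * t0 + (-(2 / 33) * x 3) * t1) * h3 +
      ((-(2 / 33) * x 4) * t2) * h4
  · simp only [Dq_3, Matrix.cons_val, e0, e1, e2, e3, e4]
    linear_combination (((1 / 3) * x 3) * t1 + ((1 / 3) * x 1) * t2) * h0
  · simp only [Dq_4, Matrix.cons_val, e0, e1, e2, e3, e4]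
    linear_combination 0 * h0

theorem right_inv_2 {x : Fin 5 → ℂ} (h : ∀ i, qq x i = 0) (t0 t1 t2 : ℂ) :
    ∃ w : Fin 5 → ℂ, Dq x w 2 = x 2 ^ 3 * t0 ∧ Dq x w 4 = x 2 ^ 3 * t1 ∧
      Dq x w 0 = x 2 ^ 3 * t2 := by
  have h0 := h 0
  have h1 := h 1
  have h2 := h 2
  have h3 := h 3
  have h4 := h 4
  simp only [qq_0, qq_1, qq_2, qq_3, qq_4] at h0 h1 h2 h3 h4
  obtain ⟨w0, e0⟩ : ∃ w : ℂ, w = ((1 / 11) * x 1 ^ 2 + (2 / 11) * x 3 * x 4) * t0 +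
      ((81 / 220) * x 0 * x 3 + (15 / 22) * x 1 * x 2 - (5 / 22) * x 4 ^ 2) * t1 +
      (-(9 / 55) * x 0 * x 1 + (8 / 11) * x 2 * x 4) * t2 := ⟨_, rfl⟩
  obtain ⟨w1, e1⟩ : ∃ w : ℂ, w = (-(2 / 11) * x 0 * x 3 - (2 / 11) * x 1 * x 2) * t0 +
      (-(5 / 11) * x 0 * x 4 + (47 / 220) * x 1 * x 3 + x 2 ^ 2) * t1 +
      (x 0 * x 2 - (23 / 55) * x 1 ^ 2 - (7 / 11) * x 3 * x 4) * t2 := ⟨_, rfl⟩
  obtain ⟨w2, e2⟩ : ∃ w : ℂ, w = (-(6 / 11) * x 0 * x 4 + (1 / 11) * x 1 * x 3 + (2 / 11) * x 2 ^ 2) * t0 +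
      (-(81 / 110) * x 0 ^ 2 + (1 / 10) * x 1 * x 4 + (81 / 220) * x 2 * x 3) * t1 +
      ((23 / 55) * x 1 * x 2 - (7 / 11) * x 4 ^ 2) * t2 := ⟨_, rfl⟩
  obtain ⟨w3, e3⟩ : ∃ w : ℂ, w = (-(2 / 11) * x 1 * x 4 - (2 / 11) * x 2 * x 3) * t0 +
      (-(7 / 11) * x 0 * x 1 + x 2 * x 4 - (81 / 220) * x 3 ^ 2) * t1 +
      (-(5 / 11) * x 0 * x 4 + (9 / 55) * x 1 * x 3 + x 2 ^ 2) * t2 := ⟨_, rfl⟩
  obtain ⟨w4, e4⟩ : ∃ w : ℂ, w = ((2 / 11) * x 0 * x 1 + (1 / 11) * x 3 ^ 2) * t0 +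
      ((8 / 11) * x 0 * x 2 - (5 / 44) * x 3 * x 4) * t1 +
      (-(18 / 55) * x 0 ^ 2 + (23 / 55) * x 1 * x 4 + (32 / 55) * x 2 * x 3) * t2 := ⟨_, rfl⟩
  refine ⟨![w0, w1, w2, w3, w4], ?_, ?_, ?_⟩
  · simp only [Dq_2, Matrix.cons_val, e0, e1, e2, e3, e4]
    linear_combination ((-(1 / 11) * x 1) * t0 + (-(6 / 55) * x 2) * t1 + (-(18 / 55) * x 0) * t2) * h0 +
      (((2 / 11) * x 4) * t0 + ((7 / 11) * x 0) * t1 + ((1 / 11) * x 3) * t2) * h1 +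
      ((-(7 / 11) * x 2) * t0 + (-(17 / 110) * x 3) * t1 + (-(9 / 55) * x 1) * t2) * h2 +
      (((3 / 11) * x 0) * t0 + ((6 / 11) * x 4) * t2) * h3 +
      ((-(5 / 22) * x 4) * t1) * h4
  · simp only [Dq_4, Matrix.cons_val, e0, e1, e2, e3, e4]
    linear_combination ((-(1 / 10) * x 1) * t1 + (-(1 / 5) * x 4) * t2) * h0
  · simp only [Dq_0, Matrix.cons_val, e0, e1, e2, e3, e4]
    linear_combination 0 * h0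

theorem right_inv_3 {x : Fin 5 → ℂ} (h : ∀ i, qq x i = 0) (t0 t1 t2 : ℂ) :
    ∃ w : Fin 5 → ℂ, Dq x w 3 = x 3 ^ 3 * t0 ∧ Dq x w 0 = x 3 ^ 3 * t1 ∧
      Dq x w 1 = x 3 ^ 3 * t2 := by
  have h0 := h 0
  have h1 := h 1
  have h2 := h 2
  have h3 := h 3
  have h4 := h 4
  simp only [qq_0, qq_1, qq_2, qq_3, qq_4] at h0 h1 h2 h3 h4
  obtain ⟨w0, e0⟩ : ∃ w : ℂ, w = ((2 / 11) * x 1 * x 2 + (1 / 11) * x 4 ^ 2) * t0 +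
      (-(9 / 55) * x 0 * x 4 + (8 / 11) * x 1 * x 3) * t1 +
      ((81 / 220) * x 0 * x 2 - (5 / 22) * x 1 ^ 2 + (15 / 22) * x 3 * x 4) * t2 := ⟨_, rfl⟩
  obtain ⟨w1, e1⟩ : ∃ w : ℂ, w = ((2 / 11) * x 0 * x 4 + (1 / 11) * x 2 ^ 2) * t0 +
      (-(5 / 22) * x 0 ^ 2 + (7 / 22) * x 1 * x 4 + (15 / 22) * x 2 * x 3) * t1 +
      ((8 / 11) * x 0 * x 3 - (5 / 44) * x 1 * x 2) * t2 := ⟨_, rfl⟩
  obtain ⟨w2, e2⟩ : ∃ w : ℂ, w = (-(2 / 11) * x 1 * x 4 - (2 / 11) * x 2 * x 3) * t0 +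
      (-(5 / 11) * x 0 * x 1 + (9 / 55) * x 2 * x 4 + x 3 ^ 2) * t1 +
      (-(7 / 11) * x 0 * x 4 + x 1 * x 3 - (81 / 220) * x 2 ^ 2) * t2 := ⟨_, rfl⟩
  obtain ⟨w3, e3⟩ : ∃ w : ℂ, w = (-(6 / 11) * x 0 * x 1 + (1 / 11) * x 2 * x 4 + (2 / 11) * x 3 ^ 2) * t0 +
      (-(7 / 11) * x 1 ^ 2 + (23 / 55) * x 3 * x 4) * t1 +
      (-(7 / 11) * x 0 ^ 2 + (103 / 220) * x 2 * x 3) * t2 := ⟨_, rfl⟩
  obtain ⟨w4, e4⟩ : ∃ w : ℂ, w = (-(2 / 11) * x 0 * x 2 - (2 / 11) * x 3 * x 4) * t0 +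
      (x 0 * x 3 - (7 / 11) * x 1 * x 2 - (23 / 55) * x 4 ^ 2) * t1 +
      (-(5 / 11) * x 0 * x 1 + (47 / 220) * x 2 * x 4 + x 3 ^ 2) * t2 := ⟨_, rfl⟩
  refine ⟨![w0, w1, w2, w3, w4], ?_, ?_, ?_⟩
  · simp only [Dq_3, Matrix.cons_val, e0, e1, e2, e3, e4]
    linear_combination ((-(3 / 11) * x 4) * t0 + (-(5 / 22) * x 0) * t1 + (-(6 / 11) * x 3) * t2) * h0 +
      (((2 / 11) * x 2) * t0 + ((1 / 11) * x 3) * t1 + (-(5 / 22) * x 1) * t2) * h1 +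
      (((5 / 11) * x 0) * t0 + ((7 / 11) * x 1) * t1 + ((7 / 11) * x 4) * t2) * h2 +
      ((-(7 / 11) * x 3) * t0 + (-(14 / 55) * x 4) * t1 + ((53 / 110) * x 2) * t2) * h3
  · simp only [Dq_0, Matrix.cons_val, e0, e1, e2, e3, e4]
    linear_combination ((-(1 / 10) * x 4) * t1 + ((1 / 10) * x 2) * t2) * h0
  · simp only [Dq_1, Matrix.cons_val, e0, e1, e2, e3, e4]
    linear_combination 0 * h0

theorem right_inv_4 {x : Fin 5 → ℂ} (h : ∀ i, qq x i = 0) (t0 t1 t2 : ℂ) :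
    ∃ w : Fin 5 → ℂ, Dq x w 4 = x 4 ^ 3 * t0 ∧ Dq x w 1 = x 4 ^ 3 * t1 ∧
      Dq x w 2 = x 4 ^ 3 * t2 := by
  have h0 := h 0
  have h1 := h 1
  have h2 := h 2
  have h3 := h 3
  have h4 := h 4
  simp only [qq_0, qq_1, qq_2, qq_3, qq_4] at h0 h1 h2 h3 h4
  obtain ⟨w0, e0⟩ : ∃ w : ℂ, w = (-(2 / 11) * x 0 * x 4 - (2 / 11) * x 1 * x 3) * t0 +
      (-(16 / 33) * x 0 ^ 2 + x 1 * x 4 - (7 / 11) * x 2 * x 3) * t1 +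
      ((13 / 66) * x 0 * x 3 - (4 / 33) * x 1 * x 2 + x 4 ^ 2) * t2 := ⟨_, rfl⟩
  obtain ⟨w1, e1⟩ : ∃ w : ℂ, w = ((1 / 11) * x 0 ^ 2 + (2 / 11) * x 2 * x 3) * t0 +
      (-(1 / 33) * x 0 * x 1 + (13 / 33) * x 2 * x 4) * t1 +
      ((17 / 33) * x 0 * x 4 + (7 / 22) * x 1 * x 3 - (2 / 33) * x 2 ^ 2) * t2 := ⟨_, rfl⟩
  obtain ⟨w2, e2⟩ : ∃ w : ℂ, w = ((2 / 11) * x 0 * x 1 + (1 / 11) * x 3 ^ 2) * t0 +
      ((5 / 33) * x 0 * x 2 - (2 / 33) * x 1 ^ 2 + (17 / 33) * x 3 * x 4) * t1 +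
      (-(1 / 6) * x 0 ^ 2 + (37 / 66) * x 1 * x 4 - (1 / 33) * x 2 * x 3) * t2 := ⟨_, rfl⟩
  obtain ⟨w3, e3⟩ : ∃ w : ℂ, w = (-(2 / 11) * x 0 * x 2 - (2 / 11) * x 3 * x 4) * t0 +
      ((1 / 33) * x 0 * x 3 - (4 / 33) * x 1 * x 2 + x 4 ^ 2) * t1 +
      (-(7 / 11) * x 0 * x 1 + x 2 * x 4 - (7 / 22) * x 3 ^ 2) * t2 := ⟨_, rfl⟩
  obtain ⟨w4, e4⟩ : ∃ w : ℂ, w = ((1 / 11) * x 0 * x 3 - (6 / 11) * x 1 * x 2 + (2 / 11) * x 4 ^ 2) * t0 +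
      ((16 / 33) * x 0 * x 4 - (10 / 33) * x 2 ^ 2) * t1 +
      ((1 / 3) * x 0 * x 2 - (7 / 11) * x 1 ^ 2 + (7 / 22) * x 3 * x 4) * t2 := ⟨_, rfl⟩
  refine ⟨![w0, w1, w2, w3, w4], ?_, ?_, ?_⟩
  · simp only [Dq_4, Matrix.cons_val, e0, e1, e2, e3, e4]
    linear_combination (((5 / 11) * x 2) * t0 + ((5 / 11) * x 3) * t1 + ((23 / 66) * x 1) * t2) * h0 +
      (((2 / 11) * x 0) * t0 + (-(2 / 33) * x 1) * t1 + (-(4 / 11) * x 4) * t2) * h1 +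
      ((-(3 / 11) * x 3) * t0 + (-(1 / 33) * x 4) * t1 + (-(2 / 33) * x 2) * t2) * h2 +
      (((2 / 11) * x 2) * t1 + ((4 / 33) * x 0) * t2) * h3 +
      ((-(7 / 11) * x 4) * t0) * h4
  · simp only [Dq_1, Matrix.cons_val, e0, e1, e2, e3, e4]
    linear_combination (((1 / 3) * x 2) * t1 + ((1 / 6) * x 0) * t2) * h0
  · simp only [Dq_2, Matrix.cons_val, e0, e1, e2, e3, e4]
    linear_combination 0 * h0

theorem QQ_contDiff (k : Fin 5) : ContDiff ℂ ω (QQ k) := by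
  rw [contDiff_pi]
  exact fin3_cases (qq_contDiff k) (qq_contDiff (k + 2)) (qq_contDiff (k + 3))

theorem fderiv_QQ (k : Fin 5) (x w : Fin 5 → ℂ) :
    fderiv ℂ (QQ k) x w = ![Dq x w k, Dq x w (k + 2), Dq x w (k + 3)] := by
  funext r
  have hd : DifferentiableAt ℂ (QQ k) x := (QQ_contDiff k).differentiable (by simp) x
  have h1 : fderiv ℂ (QQ k) x w r = fderiv ℂ (fun u => QQ k u r) x w := by
    rw [fderiv_apply hd]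
    rfl
  rw [h1]
  clear h1
  revert r
  exact fin3_cases (fderiv_qq x w k) (fderiv_qq x w (k + 2)) (fderiv_qq x w (k + 3))

theorem fderiv_QQ_surjective {x : Fin 5 → ℂ} (h : ∀ i, qq x i = 0) (k : Fin 5) (hk : x k ≠ 0) :
    Function.Surjective (fderiv ℂ (QQ k) x) := by
  have key : ∀ k : Fin 5, ∀ t0 t1 t2 : ℂ, ∃ w : Fin 5 → ℂ, Dq x w k = x k ^ 3 * t0 ∧
      Dq x w (k + 2) = x k ^ 3 * t1 ∧ Dq x w (k + 3) = x k ^ 3 * t2 :=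
    fin5_cases (right_inv_0 h) (right_inv_1 h) (right_inv_2 h) (right_inv_3 h) (right_inv_4 h)
  intro t
  obtain ⟨w, h0, h1, h2⟩ := key k (t 0 / x k ^ 3) (t 1 / x k ^ 3) (t 2 / x k ^ 3)
  have h3 : x k ^ 3 ≠ 0 := pow_ne_zero 3 hk
  refine ⟨w, ?_⟩
  rw [fderiv_QQ, h0, h1, h2, mul_div_cancel₀ _ h3, mul_div_cancel₀ _ h3, mul_div_cancel₀ _ h3]
  funext r
  revert r
  exact fin3_cases rfl rfl rfl

theorem two_le_rank_Om {x : Fin 5 → ℂ} (hx : x ≠ 0) : 2 ≤ (Matrix.of (Om x)).rank := by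
  by_contra hlt
  apply hx
  apply eq_zero_of_Om
  intro i j
  by_contra hij
  exact hlt (two_le_rank (Om_skew x) hij)

theorem rank_Om_eq_two_iff {x : Fin 5 → ℂ} (hx : x ≠ 0) :
    (Matrix.of (Om x)).rank = 2 ↔ ∀ i, qq x i = 0 := by
  constructor
  · intro h
    apply qq_eq_zero_of_pf
    intro a b c d
    by_contra hne
    have := four_le_rank (Om_skew x) hne
    omega
  · intro h
    refine le_antisymm ?_ (two_le_rank_Om hx)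
    obtain ⟨a, b, hab⟩ : ∃ a b, Om x a b ≠ 0 := by
      by_contra hne
      push Not at hne
      exact hx (eq_zero_of_Om hne)
    exact rank_le_two hab (pf_eq_zero_of_qq h a b)

theorem qq_point : ∀ i, qq ![0, 1, -1, 1, -1] i = 0 := by
  apply fin5_cases <;> simp [qq_0, qq_1, qq_2, qq_3, qq_4]

end Pool.Agent.Lib.MP_77e77d_ag
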