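import Mathlib
import Pool.Agent.Lib.MP_77e77d_ag.Descent

/-!
The Hopf manifold `(ℂ^n ∖ 0) / (v ∼ 2 v)` as a compact connected complex manifold.
-/

set_option autoImplicit false

namespace Pool.Agent.Lib.MP_77e77d_ag

open scoped ContDiff Topology Manifold
open Filter

/-- Charts from a local homeomorphism whose fibres are orbits of homotheties. -/
theorem exists_charted {n : ℕ} {X : Type} [TopologicalSpace X] (π : (Fin n → ℂ) → X)
    (M : Set (Fin n → ℂ)) (hM : IsOpen M) (hloc : IsLocalHomeomorphOn π M)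
    (hsurj : ∀ x, ∃ v ∈ M, π v = x)
    (hfib : ∀ v ∈ M, ∀ w ∈ M, π v = π w → ∃ c : ℂ, c ≠ 0 ∧ w = c • v ∧
      ∀ u ∈ M, π (c • u) = π u) :
    ∃ _ : ChartedSpace (Fin n → ℂ) X, IsManifold 𝓘(ℂ, Fin n → ℂ) ω X ∧
      ∀ v ∈ M, ∃ e ∈ atlas (Fin n → ℂ) X, v ∈ e.target ∧ e.target ⊆ M ∧ ⇑e.symm = π := by
  have hch : ∀ v ∈ M, ∃ e : OpenPartialHomeomorph X (Fin n → ℂ),
      v ∈ e.target ∧ e.target ⊆ M ∧ ⇑e.symm = π := by
    intro v hv
    obtain ⟨e, hve, he⟩ := hloc v hv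
    refine ⟨(e.restrOpen M hM).symm, ⟨hve, hv⟩, fun u hu => hu.2, ?_⟩
    rw [he]; rfl
  choose l hlM hl using hsurj
  choose ch hch1 hch2 hch3 using hch
  let C : ChartedSpace (Fin n → ℂ) X :=
    { atlas := {e | e.target ⊆ M ∧ ⇑e.symm = π}
      chartAt := fun x => ch (l x) (hlM x)
      mem_chart_source := fun x => by
        have h := (ch (l x) (hlM x)).map_target (hch1 (l x) (hlM x))
        rwa [hch3, hl] at h
      chart_mem_atlas := fun x => ⟨hch2 _ _, hch3 _ _⟩ }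
  refine ⟨C, ?_, fun v hv => ⟨ch v hv, ⟨hch2 _ _, hch3 _ _⟩, hch1 _ _, hch2 _ _, hch3 _ _⟩⟩
  apply isManifold_of_contDiffOn
  rintro e e' ⟨he1, he2⟩ ⟨he1', he2'⟩ y hy
  simp only [modelWithCornersSelf_coe_symm, Set.preimage_id_eq, id_eq, modelWithCornersSelf_coe,
    Set.range_id, Set.inter_univ, OpenPartialHomeomorph.trans_source,
    OpenPartialHomeomorph.symm_source, Set.mem_inter_iff, Set.mem_preimage, he2] at hy
  apply ContDiffAt.contDiffWithinAt
  have hz : e' (π y) ∈ e'.target := e'.map_source hy.2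
  have hπz : π (e' (π y)) = π y := by
    have := e'.left_inv hy.2
    rwa [he2'] at this
  obtain ⟨c, -, hc, hinv⟩ := hfib y (he1 hy.1) _ (he1' hz) hπz.symm
  have hcont : ContinuousAt (fun u : Fin n → ℂ => c • u) y := (continuous_const_smul c).continuousAt
  have hev : ∀ᶠ u in 𝓝 y, c • u ∈ e'.target := by
    apply hcont.eventually (p := fun z => z ∈ e'.target)
    rw [hc] at hz
    exact e'.open_target.mem_nhds hz
  refine (contDiffAt_id.const_smul c).congr_of_eventuallyEq ?_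
  filter_upwards [hev, hM.mem_nhds (he1 hy.1)] with u hu1 hu2
  have h1 := e'.right_inv hu1
  rw [he2', hinv u hu2] at h1
  simp only [modelWithCornersSelf_coe, modelWithCornersSelf_coe_symm, Function.comp_apply, id_eq,
    OpenPartialHomeomorph.coe_trans, he2, h1]

/-- Punctured affine space. -/
abbrev Pu (n : ℕ) : Type := {v : Fin n → ℂ // v ≠ 0}

theorem two_zpow_ne (k : ℤ) : (2 : ℂ) ^ k ≠ 0 := zpow_ne_zero k two_ne_zero

noncomputable instance instMulActionPu (n : ℕ) : MulAction (Multiplicative ℤ) (Pu n) where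
  smul k v := ⟨(2 : ℂ) ^ k.toAdd • v.1, smul_ne_zero (two_zpow_ne _) v.2⟩
  one_smul v := Subtype.ext (by
    change (2 : ℂ) ^ (0 : ℤ) • v.1 = v.1
    rw [zpow_zero, one_smul])
  mul_smul k l v := Subtype.ext (by
    change (2 : ℂ) ^ (k.toAdd + l.toAdd) • v.1 = (2 : ℂ) ^ k.toAdd • (2 : ℂ) ^ l.toAdd • v.1
    rw [zpow_add₀ two_ne_zero, mul_smul])

theorem smul_val {n : ℕ} (k : Multiplicative ℤ) (v : Pu n) :
    (k • v).1 = (2 : ℂ) ^ k.toAdd • v.1 := rfl

instance (n : ℕ) : ContinuousConstSMul (Multiplicative ℤ) (Pu n) where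
  continuous_const_smul k :=
    Continuous.subtype_mk (continuous_subtype_val.const_smul ((2 : ℂ) ^ k.toAdd)) _

/-- Logarithm of the norm. -/
noncomputable def lg {n : ℕ} (v : Pu n) : ℝ := Real.logb 2 ‖v.1‖

theorem continuous_lg {n : ℕ} : Continuous (lg : Pu n → ℝ) := by
  unfold lg Real.logb
  refine Continuous.div_const ?_ _
  exact continuous_subtype_val.norm.log fun v => norm_ne_zero_iff.mpr v.2

theorem lg_smul {n : ℕ} (k : Multiplicative ℤ) (v : Pu n) : lg (k • v) = k.toAdd + lg v := by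
  unfold lg
  rw [smul_val, norm_smul, norm_zpow, Complex.norm_ofNat,
    Real.logb_mul (zpow_ne_zero _ two_ne_zero) (norm_ne_zero_iff.mpr v.2), ← Real.rpow_intCast,
    Real.logb_rpow two_pos (by norm_num)]

instance (n : ℕ) : IsCancelSMul (Multiplicative ℤ) (Pu n) where
  right_cancel' a b v h := by
    have h1 := congrArg lg h
    rw [lg_smul, lg_smul, add_left_inj, Int.cast_inj] at h1
    exact Multiplicative.toAdd.injective h1

instance (n : ℕ) : ProperlyDiscontinuousSMul (Multiplicative ℤ) (Pu n) where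
  finite_disjoint_inter_image := by
    intro K L hK hL
    obtain ⟨C, hC⟩ := (hK.union hL).exists_bound_of_continuousOn continuous_lg.continuousOn
    obtain ⟨N, hN⟩ := exists_nat_ge (2 * C)
    refine Set.Finite.subset ((Set.finite_Icc (-(N : ℤ)) N).image Multiplicative.ofAdd) ?_
    rintro k ⟨w, ⟨v, hv, rfl⟩, hw⟩
    refine ⟨k.toAdd, ?_, rfl⟩
    have h1 := hC v (Or.inl hv)
    have h2 := hC _ (Or.inr hw)
    simp only [lg_smul, Real.norm_eq_abs, abs_le] at h1 h2
    constructor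
    · have : (-(N : ℤ) : ℝ) ≤ (k.toAdd : ℝ) := by push_cast; linarith [h1.2, h2.1]
      exact_mod_cast this
    · have : (k.toAdd : ℝ) ≤ ((N : ℤ) : ℝ) := by push_cast; linarith [h1.1, h2.2]
      exact_mod_cast this

instance (n : ℕ) : LocallyCompactSpace (Pu n) :=
  (isOpen_compl_singleton (x := (0 : Fin n → ℂ))).locallyCompactSpace

/-- The Hopf manifold. -/
abbrev Hopf (n : ℕ) : Type := Quotient (MulAction.orbitRel (Multiplicative ℤ) (Pu n))

open Classical in
/-- The projection, extended by a junk value at the origin. -/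
noncomputable def proj (n : ℕ) (v : Fin (n + 1) → ℂ) : Hopf (n + 1) :=
  if h : v = 0 then Quotient.mk _ ⟨1, one_ne_zero⟩ else Quotient.mk _ ⟨v, h⟩

theorem proj_of_ne {n : ℕ} {v : Fin (n + 1) → ℂ} (h : v ≠ 0) :
    proj n v = Quotient.mk _ ⟨v, h⟩ := dif_neg h

theorem proj_comp_val (n : ℕ) : proj n ∘ Subtype.val =
    Quotient.mk (MulAction.orbitRel (Multiplicative ℤ) (Pu (n + 1))) :=
  funext fun v => proj_of_ne v.2

theorem isLocalHomeomorphOn_proj (n : ℕ) : IsLocalHomeomorphOn (proj n) {0}ᶜ := by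
  have h1 : IsLocalHomeomorph (proj n ∘ (Subtype.val : Pu (n + 1) → _)) := by
    rw [proj_comp_val]
    exact isQuotientCoveringMap_quotientMk_of_properlyDiscontinuousSMul.isCoveringMap
      |>.isLocalHomeomorph
  have h2 : IsLocalHomeomorph (Subtype.val : Pu (n + 1) → _) :=
    (isOpen_compl_singleton (x := (0 : Fin (n + 1) → ℂ))).isOpenEmbedding_subtypeVal
      |>.isLocalHomeomorph
  have h3 := IsLocalHomeomorphOn.of_comp_right (s := Set.univ) h1.isLocalHomeomorphOn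
    h2.isLocalHomeomorphOn
  refine h3.mono fun v hv => ⟨⟨v, hv⟩, trivial, rfl⟩

theorem proj_surj (n : ℕ) (x : Hopf (n + 1)) : ∃ v ∈ ({0}ᶜ : Set (Fin (n + 1) → ℂ)),
    proj n v = x := by
  obtain ⟨v, rfl⟩ := Quotient.exists_rep x
  exact ⟨v.1, v.2, proj_of_ne v.2⟩

theorem proj_smul (n : ℕ) (k : ℤ) {u : Fin (n + 1) → ℂ} (hu : u ≠ 0) :
    proj n ((2 : ℂ) ^ k • u) = proj n u := by
  rw [proj_of_ne hu, proj_of_ne (smul_ne_zero (two_zpow_ne k) hu)]
  exact Quotient.sound ⟨Multiplicative.ofAdd k, rfl⟩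

theorem proj_fib (n : ℕ) : ∀ v ∈ ({0}ᶜ : Set (Fin (n + 1) → ℂ)),
    ∀ w ∈ ({0}ᶜ : Set (Fin (n + 1) → ℂ)), proj n v = proj n w → ∃ c : ℂ, c ≠ 0 ∧ w = c • v ∧
      ∀ u ∈ ({0}ᶜ : Set (Fin (n + 1) → ℂ)), proj n (c • u) = proj n u := by
  intro v hv w hw h
  rw [proj_of_ne hv, proj_of_ne hw] at h
  obtain ⟨k, hk⟩ := Quotient.exact h.symm
  exact ⟨(2 : ℂ) ^ k.toAdd, two_zpow_ne _, (congrArg Subtype.val hk).symm,
    fun u hu => proj_smul n _ hu⟩

instance (n : ℕ) : CompactSpace (Hopf (n + 1)) := by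
  constructor
  have hK : IsCompact (Metric.closedBall (0 : Fin (n + 1) → ℂ) 2 \ Metric.ball 0 1) :=
    (isCompact_closedBall _ _).diff Metric.isOpen_ball
  have hsub : Metric.closedBall (0 : Fin (n + 1) → ℂ) 2 \ Metric.ball 0 1 ⊆ {0}ᶜ := by
    rintro v ⟨-, hv⟩ rfl
    exact hv (Metric.mem_ball_self one_pos)
  have h1 := hK.image_of_continuousOn ((isLocalHomeomorphOn_proj n).continuousOn.mono hsub)
  convert h1
  symm
  rw [Set.eq_univ_iff_forall]
  intro x
  obtain ⟨v, hv, rfl⟩ := proj_surj n x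
  have hpos : 0 < ‖v‖ := norm_pos_iff.mpr hv
  obtain ⟨k, hk1, hk2⟩ := exists_mem_Ico_zpow hpos (one_lt_two (α := ℝ))
  have h2 : (0 : ℝ) < 2 ^ k := zpow_pos two_pos k
  have hn : ‖(2 : ℂ) ^ (-k) • v‖ = ‖v‖ / 2 ^ k := by
    rw [norm_smul, norm_zpow, Complex.norm_ofNat, zpow_neg, div_eq_inv_mul]
  refine ⟨(2 : ℂ) ^ (-k) • v, ⟨?_, ?_⟩, proj_smul n _ hv⟩
  · rw [mem_closedBall_zero_iff, hn, div_le_iff₀ h2]
    rw [zpow_add_one₀ two_ne_zero] at hk2
    linarith
  · rw [mem_ball_zero_iff, hn, not_lt, le_div_iff₀ h2]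
    linarith

instance (n : ℕ) : ConnectedSpace (Hopf (n + 1)) := by
  rw [connectedSpace_iff_univ]
  have hr : 1 < Module.rank ℝ (Fin (n + 1) → ℂ) := by
    rw [← Module.finrank_eq_rank, Module.finrank_pi_fintype]
    simp only [Complex.finrank_real_complex, Finset.sum_const, Finset.card_univ, Fintype.card_fin,
      smul_eq_mul]
    exact_mod_cast (by omega : 1 < (n + 1) * 2)
  have h1 := (isConnected_compl_singleton_of_one_lt_rank hr 0).image _
    (isLocalHomeomorphOn_proj n).continuousOn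
  convert h1
  symm
  rw [Set.eq_univ_iff_forall]
  exact proj_surj n

end Pool.Agent.Lib.MP_77e77d_ag
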