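import Mathlib
import Pool.Agent.Lib.MP_77e77d_ag.Hopf
import Pool.Agent.Lib.MP_77e77d_ag.Elliptic

/-!
The Hopf manifold `(ℂ^5 ∖ 0) / (v ∼ 2 v)` with the Feigin-Odesskii bracket `q_{5,1}(E)`.
The rank is two exactly on the image of the punctured cone over the elliptic quintic `E`,
and four elsewhere.
-/

set_option autoImplicit false

namespace Pool.Agent.Lib.MP_77e77d_ag

open scoped ContDiff Topology Manifold
open Filter

theorem hopf_main :
    ∃ (X : Type) (_ : TopologicalSpace X) (_ : T2Space X) (_ : CompactSpace X)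
      (_ : ConnectedSpace X) (_ : ChartedSpace (Fin 5 → ℂ) X)
      (_ : IsManifold 𝓘(ℂ, Fin 5 → ℂ) ω X) (τ : SharpField (Fin 5 → ℂ) X),
      IsHolPoisson τ ∧ rankLocus τ 0 = ∅ ∧ (rankLocus τ 2).Nonempty ∧
        ∀ x ∈ rankLocus τ 2, IsSubmanifoldAt (Fin 5 → ℂ) 2 (rankLocus τ 2) x := by
  obtain ⟨C, hman, hch⟩ := exists_charted (proj 4) {0}ᶜ isOpen_compl_singleton
    (isLocalHomeomorphOn_proj 4) (proj_surj 4) (proj_fib 4)
  have hπ : ∀ v ∈ ({0}ᶜ : Set (Fin 5 → ℂ)),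
      ContMDiffAt 𝓘(ℂ, Fin 5 → ℂ) 𝓘(ℂ, Fin 5 → ℂ) ω (proj 4) v := by
    intro v hv
    obtain ⟨e, he, hve, -, hes⟩ := hch v hv
    rw [← hes]
    exact contMDiffAt_symm_of_mem_maximalAtlas (IsManifold.subset_maximalAtlas he) hve
  have hbij : ∀ v ∈ ({0}ᶜ : Set (Fin 5 → ℂ)), Function.Bijective (dπ 5 (proj 4) v) := by
    intro v hv
    obtain ⟨e, he, hve, -, hes⟩ := hch v hv
    rw [← hes]
    exact (mdifferentiable_of_mem_atlas (I := 𝓘(ℂ, Fin 5 → ℂ)) he).symm.mfderiv_bijective hve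
  have hsec : ∀ x : Hopf 5, ∃ s : Hopf 5 → (Fin 5 → ℂ), s x ∈ ({0}ᶜ : Set (Fin 5 → ℂ)) ∧
      ContMDiffAt 𝓘(ℂ, Fin 5 → ℂ) 𝓘(ℂ, Fin 5 → ℂ) ω s x ∧ ∀ᶠ y in 𝓝 x, proj 4 (s y) = y := by
    intro x
    obtain ⟨v, hv, rfl⟩ := proj_surj 4 x
    obtain ⟨e, he, hve, hsub, hes⟩ := hch v hv
    have hx : proj 4 v ∈ e.source := by
      rw [← hes]; exact e.map_target hve
    refine ⟨e, hsub (e.map_source hx),
      contMDiffAt_of_mem_maximalAtlas (IsManifold.subset_maximalAtlas he) hx, ?_⟩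
    filter_upwards [e.open_source.mem_nhds hx] with y hy
    rw [← hes]; exact e.left_inv hy
  obtain ⟨τ, hτ, hrk⟩ := descent (n := 5) isOpen_compl_singleton hπ hsec
    (fun v hv w hw h => by
      obtain ⟨c, hc, hw, hinv⟩ := proj_fib 4 v hv w hw h
      refine ⟨c, hc, hw, ?_⟩
      filter_upwards [isOpen_compl_singleton.mem_nhds hv] with u hu
      exact hinv u hu)
    (fun v i j => (Om_contDiff i j).contDiffAt) Om_skew Om_smul Om_jacobi
  have hrk' : ∀ x : Hopf 5, ∃ v ∈ ({0}ᶜ : Set (Fin 5 → ℂ)), proj 4 v = x ∧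
      rankAt τ x = (Matrix.of (Om v)).rank := by
    intro x
    obtain ⟨v, hv, hx, h⟩ := hrk x
    exact ⟨v, hv, hx, h.trans (finrank_range_pushSh (hbij v hv) _)⟩
  have hiff : ∀ v ∈ ({0}ᶜ : Set (Fin 5 → ℂ)), rankAt τ (proj 4 v) = 2 ↔ ∀ i, qq v i = 0 := by
    intro v hv
    obtain ⟨w, hw, hx, h⟩ := hrk' (proj 4 v)
    obtain ⟨c, hc, rfl, -⟩ := proj_fib 4 v hv w hw hx.symm
    rw [h, rank_Om_eq_two_iff hw]
    refine forall_congr' fun i => ?_
    rw [qq_smul, mul_eq_zero, or_iff_right (pow_ne_zero 2 hc)]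
  refine ⟨Hopf 5, inferInstance, inferInstance, inferInstance, inferInstance, C, hman, τ, hτ,
    ?_, ?_, ?_⟩
  · rw [Set.eq_empty_iff_forall_notMem]
    intro x hx
    obtain ⟨v, hv, -, h⟩ := hrk' x
    have h1 := two_le_rank_Om hv
    have h2 : rankAt τ x = 0 := hx
    omega
  · refine ⟨proj 4 ![0, 1, -1, 1, -1], (hiff _ ?_).mpr qq_point⟩
    intro h
    have := congrFun h 1
    simp at this
  · intro x hx
    obtain ⟨v, hv, rfl⟩ := proj_surj 4 x
    have hq : ∀ i, qq v i = 0 := (hiff v hv).mp hx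
    obtain ⟨k, hk⟩ : ∃ k, v k ≠ 0 := Function.ne_iff.mp hv
    obtain ⟨e, he, hve, hsub, hes⟩ := hch v hv
    have hx' : proj 4 v ∈ e.source := by
      rw [← hes]; exact e.map_target hve
    have hev : e (proj 4 v) = v := by
      have := e.right_inv hve
      rwa [hes] at this
    have hQ : ContMDiff 𝓘(ℂ, Fin 5 → ℂ) 𝓘(ℂ, Fin 3 → ℂ) ω (QQ k) := (QQ_contDiff k).contMDiff
    refine isSubmanifoldAt_of_surjective (k := 3) (U := e.source ∩ e ⁻¹' {u | u k ≠ 0})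
      (f := QQ k ∘ e) rfl ?_ ⟨hx', ?_⟩ ?_ ?_ ?_
    · exact e.continuousOn.isOpen_inter_preimage e.open_source
        (isOpen_ne_fun (continuous_apply k) continuous_const)
    · change e (proj 4 v) k ≠ 0
      rwa [hev]
    · exact hQ.comp_contMDiffOn
        ((contMDiffOn_of_mem_maximalAtlas (IsManifold.subset_maximalAtlas he)).mono
          Set.inter_subset_left)
    · have h1 := mfderiv_comp (proj 4 v) (hQ.mdifferentiableAt (by simp))
        (mdifferentiableAt_atlas (I := 𝓘(ℂ, Fin 5 → ℂ)) he hx')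
      have h2 := (mdifferentiable_of_mem_atlas (I := 𝓘(ℂ, Fin 5 → ℂ)) he).mfderiv_surjective hx'
      have h3 : Function.Surjective
          (mfderiv 𝓘(ℂ, Fin 5 → ℂ) 𝓘(ℂ, Fin 3 → ℂ) (QQ k) (e (proj 4 v))) := by
        rw [mfderiv_eq_fderiv, hev]
        exact fderiv_QQ_surjective hq k hk
      rw [h1]
      exact h3.comp h2
    · rintro y ⟨hy1, hy2⟩
      have hy : proj 4 (e y) = y := by
        rw [← hes]; exact e.left_inv hy1
      have := hiff (e y) (hsub (e.map_source hy1))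
      rw [hy] at this
      exact this.trans (QQ_eq_zero_iff k hy2).symm

end Pool.Agent.Lib.MP_77e77d_ag
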