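import Mathlib
import Pool.Agent.Lib.MP_77e77d_ag.Hopf

/-!
Complex projective space as a compact connected complex manifold, with its standard affine charts.
-/

set_option autoImplicit false

namespace Pool.Agent.Lib.MP_77e77d_ag

open scoped ContDiff Topology Manifold
open Filter

noncomputable instance instMulActionUnitsPu (n : ℕ) : MulAction ℂˣ (Pu n) where
  smul c v := ⟨(c : ℂ) • v.1, smul_ne_zero c.ne_zero v.2⟩
  one_smul v := Subtype.ext (one_smul ℂ v.1)
  mul_smul c d v := Subtype.ext (mul_smul (c : ℂ) (d : ℂ) v.1)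

instance (n : ℕ) : ContinuousConstSMul ℂˣ (Pu n) where
  continuous_const_smul c := Continuous.subtype_mk (continuous_subtype_val.const_smul (c : ℂ)) _

/-- Complex projective space. -/
abbrev PS (n : ℕ) : Type := Quotient (MulAction.orbitRel ℂˣ (Pu (n + 1)))

open Classical in
/-- The projection, extended by a junk value at the origin. -/
noncomputable def pr (n : ℕ) (v : Fin (n + 1) → ℂ) : PS n :=
  if h : v = 0 then Quotient.mk _ ⟨1, one_ne_zero⟩ else Quotient.mk _ ⟨v, h⟩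

variable {n : ℕ}

theorem pr_of_ne {v : Fin (n + 1) → ℂ} (h : v ≠ 0) : pr n v = Quotient.mk _ ⟨v, h⟩ := dif_neg h

theorem pr_surj (x : PS n) : ∃ v : Fin (n + 1) → ℂ, v ≠ 0 ∧ pr n v = x := by
  obtain ⟨v, rfl⟩ := Quotient.exists_rep x
  exact ⟨v.1, v.2, pr_of_ne v.2⟩

theorem pr_smul {c : ℂ} (hc : c ≠ 0) {u : Fin (n + 1) → ℂ} (hu : u ≠ 0) :
    pr n (c • u) = pr n u := by
  rw [pr_of_ne hu, pr_of_ne (smul_ne_zero hc hu)]
  exact Quotient.sound ⟨Units.mk0 c hc, rfl⟩

theorem pr_eq_iff {v w : Fin (n + 1) → ℂ} (hv : v ≠ 0) (hw : w ≠ 0) :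
    pr n v = pr n w ↔ ∃ c : ℂ, w = c • v := by
  constructor
  · intro h
    rw [pr_of_ne hv, pr_of_ne hw] at h
    obtain ⟨c, hc⟩ := Quotient.exact h.symm
    exact ⟨c, (congrArg Subtype.val hc).symm⟩
  · rintro ⟨c, rfl⟩
    have hc : c ≠ 0 := by
      rintro rfl
      exact hw (zero_smul ℂ v)
    exact (pr_smul hc hv).symm

theorem continuousOn_pr : ContinuousOn (pr n) {0}ᶜ := by
  rw [continuousOn_iff_continuous_domRestrict]
  have : ({0}ᶜ : Set (Fin (n + 1) → ℂ)).domRestrict (pr n) =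
      Quotient.mk (MulAction.orbitRel ℂˣ (Pu (n + 1))) := funext fun v => pr_of_ne v.2
  rw [this]
  exact continuous_quotient_mk'

instance : T2Space (PS n) := by
  rw [t2Space_iff_of_isOpenQuotientMap MulAction.isOpenQuotientMap_quotientMk]
  have : {q : Pu (n + 1) × Pu (n + 1) | Quotient.mk (MulAction.orbitRel ℂˣ (Pu (n + 1))) q.1 =
      Quotient.mk _ q.2} = ⋂ i, ⋂ j, {q | q.1.1 i * q.2.1 j = q.1.1 j * q.2.1 i} := by
    ext ⟨v, w⟩
    simp only [Set.mem_ofPred_eq, Set.mem_iInter]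
    rw [← pr_of_ne v.2, ← pr_of_ne w.2, pr_eq_iff v.2 w.2]
    constructor
    · rintro ⟨c, hc⟩ i j
      rw [hc]
      simp only [Pi.smul_apply, smul_eq_mul]
      ring
    · intro h
      obtain ⟨k, hk⟩ : ∃ k, v.1 k ≠ 0 := Function.ne_iff.mp v.2
      refine ⟨w.1 k / v.1 k, funext fun i => ?_⟩
      simp only [Pi.smul_apply, smul_eq_mul]
      field_simp
      linear_combination h k i
  rw [this]
  have hc : ∀ i, Continuous fun v : Pu (n + 1) => v.1 i :=
    fun i => (continuous_apply i).comp continuous_subtype_val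
  exact isClosed_iInter fun i => isClosed_iInter fun j => isClosed_eq
    (((hc i).comp continuous_fst).mul ((hc j).comp continuous_snd))
    (((hc j).comp continuous_fst).mul ((hc i).comp continuous_snd))

instance : CompactSpace (PS n) := by
  constructor
  have hsub : Metric.sphere (0 : Fin (n + 1) → ℂ) 1 ⊆ {0}ᶜ := by
    rintro v hv rfl
    simp at hv
  have h1 := (isCompact_sphere (0 : Fin (n + 1) → ℂ) 1).image_of_continuousOn
    (continuousOn_pr.mono hsub)
  convert h1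
  symm
  rw [Set.eq_univ_iff_forall]
  intro x
  obtain ⟨v, hv, rfl⟩ := pr_surj x
  have hn : ‖v‖ ≠ 0 := norm_ne_zero_iff.mpr hv
  refine ⟨((‖v‖ : ℂ))⁻¹ • v, ?_, pr_smul (inv_ne_zero (by exact_mod_cast hn)) hv⟩
  rw [mem_sphere_zero_iff_norm, norm_smul, norm_inv, Complex.norm_real, norm_norm,
    inv_mul_cancel₀ hn]

instance : ConnectedSpace (PS n) := by
  rw [connectedSpace_iff_univ]
  have hr : 1 < Module.rank ℝ (Fin (n + 1) → ℂ) := by
    rw [← Module.finrank_eq_rank, Module.finrank_pi_fintype]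
    simp only [Complex.finrank_real_complex, Finset.sum_const, Finset.card_univ, Fintype.card_fin,
      smul_eq_mul]
    exact_mod_cast (by omega : 1 < (n + 1) * 2)
  have h1 := (isConnected_compl_singleton_of_one_lt_rank hr 0).image _ (continuousOn_pr (n := n))
  convert h1
  symm
  rw [Set.eq_univ_iff_forall]
  exact pr_surj

/-- Affine coordinates. -/
noncomputable def aff (j : Fin (n + 1)) (v : Fin (n + 1) → ℂ) : Fin n → ℂ :=
  fun i => v (j.succAbove i) / v j

/-- The section of the affine chart. -/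
def ins (j : Fin (n + 1)) (y : Fin n → ℂ) : Fin (n + 1) → ℂ :=
  Fin.insertNth (α := fun _ => ℂ) j 1 y

theorem ins_self (j : Fin (n + 1)) (y : Fin n → ℂ) : ins j y j = 1 := by simp [ins]

theorem ins_ne (j : Fin (n + 1)) (y : Fin n → ℂ) : ins j y ≠ 0 := fun h => by
  have := congrFun h j
  simp [ins_self] at this

theorem aff_ins (j : Fin (n + 1)) (y : Fin n → ℂ) : aff j (ins j y) = y := by
  funext i
  simp [aff, ins]

theorem ins_aff (j : Fin (n + 1)) {v : Fin (n + 1) → ℂ} (h : v j ≠ 0) :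
    ins j (aff j v) = (v j)⁻¹ • v := by
  funext l
  refine Fin.succAboveCases j ?_ (fun i => ?_) l
  · simp [ins, h]
  · simp [ins, aff, div_eq_inv_mul]

theorem aff_smul (j : Fin (n + 1)) {c : ℂ} (hc : c ≠ 0) (v : Fin (n + 1) → ℂ) :
    aff j (c • v) = aff j v := by
  funext i
  simp only [aff, Pi.smul_apply, smul_eq_mul, mul_div_mul_left _ _ hc]

theorem contDiff_ins (j : Fin (n + 1)) : ContDiff ℂ ω (ins j) := by
  rw [contDiff_pi]
  intro l
  refine Fin.succAboveCases j ?_ (fun i => ?_) l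
  · simp only [ins_self]; exact contDiff_const
  · simp only [ins, Fin.insertNth_apply_succAbove]; exact contDiff_apply ℂ ℂ i

theorem contDiffAt_aff (j : Fin (n + 1)) {v : Fin (n + 1) → ℂ} (h : v j ≠ 0) :
    ContDiffAt ℂ ω (aff j) v := by
  rw [contDiffAt_pi]
  intro i
  exact (contDiffAt_apply ℂ ℂ _ v).div (contDiffAt_apply ℂ ℂ _ v) h

/-- Affine coordinates on projective space. -/
noncomputable def affQ (j : Fin (n + 1)) : PS n → (Fin n → ℂ) :=
  Quotient.lift (fun v : Pu (n + 1) => aff j v.1) (by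
    rintro v w ⟨c, rfl⟩
    exact aff_smul j c.ne_zero _)

theorem affQ_pr (j : Fin (n + 1)) {v : Fin (n + 1) → ℂ} (h : v ≠ 0) :
    affQ j (pr n v) = aff j v := by
  rw [pr_of_ne h]; rfl

theorem ne_zero_of_apply {j : Fin (n + 1)} {v : Fin (n + 1) → ℂ} (h : v j ≠ 0) : v ≠ 0 :=
  fun h0 => h (congrFun h0 j)

/-- The standard affine chart. -/
noncomputable def chartP (j : Fin (n + 1)) : OpenPartialHomeomorph (PS n) (Fin n → ℂ) where
  toFun := affQ j
  invFun y := pr n (ins j y)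
  source := pr n '' {v | v j ≠ 0}
  target := Set.univ
  map_source' _ _ := trivial
  map_target' y _ := ⟨ins j y, by simp [ins_self], rfl⟩
  left_inv' := by
    rintro _ ⟨v, hv, rfl⟩
    rw [affQ_pr j (ne_zero_of_apply hv), ins_aff j hv, pr_smul (inv_ne_zero hv)
      (ne_zero_of_apply hv)]
  right_inv' y _ := by rw [affQ_pr j (ins_ne j y), aff_ins]
  open_source := by
    have h1 : pr n '' {v | v j ≠ 0} = Quotient.mk (MulAction.orbitRel ℂˣ (Pu (n + 1))) ''
        {v | v.1 j ≠ 0} := by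
      ext x
      constructor
      · rintro ⟨v, hv, rfl⟩
        exact ⟨⟨v, ne_zero_of_apply hv⟩, hv, (pr_of_ne _).symm⟩
      · rintro ⟨v, hv, rfl⟩
        exact ⟨v.1, hv, pr_of_ne v.2⟩
    rw [h1]
    exact MulAction.isOpenQuotientMap_quotientMk.isOpenMap _
      (isOpen_ne_fun ((continuous_apply j).comp continuous_subtype_val) continuous_const)
  open_target := isOpen_univ
  continuousOn_toFun := by
    rintro _ ⟨v, hv, rfl⟩
    apply ContinuousAt.continuousWithinAt
    rw [pr_of_ne (ne_zero_of_apply hv),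
      ← MulAction.isOpenQuotientMap_quotientMk.continuousAt_comp_iff]
    exact ContinuousAt.comp (f := (Subtype.val : Pu (n + 1) → _)) (x := ⟨v, ne_zero_of_apply hv⟩)
      (contDiffAt_aff j hv).continuousAt continuous_subtype_val.continuousAt
  continuousOn_invFun :=
    continuousOn_pr.comp (contDiff_ins j).continuous.continuousOn fun y _ => ins_ne j y

theorem mem_chartP_source {j : Fin (n + 1)} {v : Fin (n + 1) → ℂ} (hv : v ≠ 0) :
    pr n v ∈ (chartP j).source ↔ v j ≠ 0 := by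
  constructor
  · rintro ⟨w, hw, h⟩
    obtain ⟨c, rfl⟩ := (pr_eq_iff (ne_zero_of_apply hw) hv).mp h
    have hc : c ≠ 0 := by
      rintro rfl
      exact hv (zero_smul ℂ w)
    exact mul_ne_zero hc hw
  · intro h
    exact ⟨v, h, rfl⟩

theorem exists_chartP (x : PS n) : ∃ j, x ∈ (chartP j).source := by
  obtain ⟨v, hv, rfl⟩ := pr_surj x
  obtain ⟨j, hj⟩ := Function.ne_iff.mp hv
  exact ⟨j, (mem_chartP_source hv).mpr hj⟩

noncomputable instance instChartedSpacePS : ChartedSpace (Fin n → ℂ) (PS n) where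
  atlas := Set.range chartP
  chartAt x := chartP (exists_chartP x).choose
  mem_chart_source x := (exists_chartP x).choose_spec
  chart_mem_atlas _ := ⟨_, rfl⟩

instance : IsManifold 𝓘(ℂ, Fin n → ℂ) ω (PS n) := by
  apply isManifold_of_contDiffOn
  rintro _ _ ⟨j, rfl⟩ ⟨k, rfl⟩ y hy
  simp only [modelWithCornersSelf_coe_symm, Set.preimage_id_eq, id_eq, modelWithCornersSelf_coe,
    Set.range_id, Set.inter_univ, OpenPartialHomeomorph.trans_source,
    OpenPartialHomeomorph.symm_source, Set.mem_inter_iff, Set.mem_preimage] at hy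
  have hk : ins j y k ≠ 0 := (mem_chartP_source (ins_ne j y)).mp hy.2
  apply ContDiffAt.contDiffWithinAt
  refine ((contDiffAt_aff k hk).comp y (contDiff_ins j).contDiffAt).congr_of_eventuallyEq ?_
  refine Eventually.of_forall fun u => ?_
  exact affQ_pr k (ins_ne j u)

theorem chartP_mem_atlas (j : Fin (n + 1)) : chartP j ∈ atlas (Fin n → ℂ) (PS n) := ⟨j, rfl⟩

theorem pr_eventuallyEq {j : Fin (n + 1)} {v : Fin (n + 1) → ℂ} (h : v j ≠ 0) :
    pr n =ᶠ[𝓝 v] (chartP j).symm ∘ aff j := by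
  filter_upwards [(isOpen_ne_fun (continuous_apply j) continuous_const).mem_nhds h] with u hu
  change pr n u = pr n (ins j (aff j u))
  rw [ins_aff j hu, pr_smul (inv_ne_zero hu) (ne_zero_of_apply hu)]

theorem contMDiffAt_pr {v : Fin (n + 1) → ℂ} (hv : v ≠ 0) :
    ContMDiffAt 𝓘(ℂ, Fin (n + 1) → ℂ) 𝓘(ℂ, Fin n → ℂ) ω (pr n) v := by
  obtain ⟨j, hj⟩ := Function.ne_iff.mp hv
  refine ContMDiffAt.congr_of_eventuallyEq ?_ (pr_eventuallyEq hj)
  exact (contMDiffAt_symm_of_mem_maximalAtlas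
    (IsManifold.subset_maximalAtlas (chartP_mem_atlas j)) (Set.mem_univ _)).comp v
    (contDiffAt_aff j hj).contMDiffAt

theorem exists_section (x : PS n) : ∃ s : PS n → (Fin (n + 1) → ℂ),
    s x ∈ ({0}ᶜ : Set (Fin (n + 1) → ℂ)) ∧
    ContMDiffAt 𝓘(ℂ, Fin n → ℂ) 𝓘(ℂ, Fin (n + 1) → ℂ) ω s x ∧ ∀ᶠ y in 𝓝 x, pr n (s y) = y := by
  obtain ⟨j, hj⟩ := exists_chartP x
  refine ⟨ins j ∘ chartP j, ins_ne j _, ?_, ?_⟩
  · exact (contDiff_ins j).contMDiff.contMDiffAt.comp x
      (contMDiffAt_of_mem_maximalAtlas (IsManifold.subset_maximalAtlas (chartP_mem_atlas j)) hj)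
  · filter_upwards [(chartP j).open_source.mem_nhds hj] with y hy
    exact (chartP j).left_inv hy

theorem dπ_pr {j : Fin (n + 1)} {v : Fin (n + 1) → ℂ} (h : v j ≠ 0) :
    ∃ D : (Fin n → ℂ) →L[ℂ] (Fin n → ℂ), Function.Bijective D ∧
      dπ n (pr n) v = D.comp (fderiv ℂ (aff j) v) := by
  refine ⟨mfderiv 𝓘(ℂ, Fin n → ℂ) 𝓘(ℂ, Fin n → ℂ) (chartP j).symm (aff j v),
    (mdifferentiable_of_mem_atlas (I := 𝓘(ℂ, Fin n → ℂ))
      (chartP_mem_atlas j)).symm.mfderiv_bijective (Set.mem_univ _), ?_⟩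
  have h1 := mfderiv_comp v (mdifferentiableAt_atlas_symm (I := 𝓘(ℂ, Fin n → ℂ))
    (chartP_mem_atlas j) (Set.mem_univ (aff j v)))
    ((contDiffAt_aff j h).contMDiffAt.mdifferentiableAt (by simp))
  rw [mfderiv_eq_fderiv] at h1
  have h2 := (pr_eventuallyEq h).mfderiv_eq (I := 𝓘(ℂ, Fin (n + 1) → ℂ))
    (I' := 𝓘(ℂ, Fin n → ℂ))
  exact h2.trans h1

end Pool.Agent.Lib.MP_77e77d_ag
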