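import Mathlib
import Pool.Agent.Lib.MP_77e77d_ag.Elliptic
import Pool.Agent.Lib.MP_77e77d_ag.ProjSpace

/-!
The Poisson structure on `ℙ^5` extending the product of the linear Poisson structure on the dual
of `so_3(ℂ)` with the standard symplectic plane.  It vanishes on the hyperplane at infinity, has
rank two on an affine plane and rank four elsewhere.
-/

set_option autoImplicit false
set_option linter.unusedSimpArgs false

namespace Pool.Agent.Lib.MP_77e77d_ag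

open scoped ContDiff Topology Manifold
open Filter

theorem fin6_cases {P : Fin 6 → Prop} (h0 : P 0) (h1 : P 1) (h2 : P 2) (h3 : P 3) (h4 : P 4)
    (h5 : P 5) : ∀ i, P i := by
  intro i
  fin_cases i
  exacts [h0, h1, h2, h3, h4, h5]

/-- The homogeneous Poisson tensor. -/
def Th (x : Fin 6 → ℂ) : Fin 6 → Fin 6 → ℂ :=
  ![![0, 0, 0, 0, 0, 0],
    ![0, 0, x 0 * x 3, -x 0 * x 2, 0, 0],
    ![0, -x 0 * x 3, 0, x 0 * x 1, 0, 0],
    ![0, x 0 * x 2, -x 0 * x 1, 0, 0, 0],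
    ![0, 0, 0, 0, 0, x 0 ^ 2],
    ![0, 0, 0, 0, -x 0 ^ 2, 0]]

/-- Its derivative at `x` in the direction `w`. -/
def DTh (x w : Fin 6 → ℂ) : Fin 6 → Fin 6 → ℂ :=
  ![![0, 0, 0, 0, 0, 0],
    ![0, 0, x 0 * w 3 + x 3 * w 0, -x 0 * w 2 - x 2 * w 0, 0, 0],
    ![0, -x 0 * w 3 - x 3 * w 0, 0, x 0 * w 1 + x 1 * w 0, 0, 0],
    ![0, x 0 * w 2 + x 2 * w 0, -x 0 * w 1 - x 1 * w 0, 0, 0, 0],
    ![0, 0, 0, 0, 0, 2 * x 0 * w 0],
    ![0, 0, 0, 0, -2 * x 0 * w 0, 0]]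

theorem Th_00 (x : Fin 6 → ℂ) : Th x 0 0 = 0 := rfl
theorem DTh_00 (x w : Fin 6 → ℂ) : DTh x w 0 0 = 0 := rfl
theorem Th_01 (x : Fin 6 → ℂ) : Th x 0 1 = 0 := rfl
theorem DTh_01 (x w : Fin 6 → ℂ) : DTh x w 0 1 = 0 := rfl
theorem Th_02 (x : Fin 6 → ℂ) : Th x 0 2 = 0 := rfl
theorem DTh_02 (x w : Fin 6 → ℂ) : DTh x w 0 2 = 0 := rfl
theorem Th_03 (x : Fin 6 → ℂ) : Th x 0 3 = 0 := rfl
theorem DTh_03 (x w : Fin 6 → ℂ) : DTh x w 0 3 = 0 := rfl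
theorem Th_04 (x : Fin 6 → ℂ) : Th x 0 4 = 0 := rfl
theorem DTh_04 (x w : Fin 6 → ℂ) : DTh x w 0 4 = 0 := rfl
theorem Th_05 (x : Fin 6 → ℂ) : Th x 0 5 = 0 := rfl
theorem DTh_05 (x w : Fin 6 → ℂ) : DTh x w 0 5 = 0 := rfl
theorem Th_10 (x : Fin 6 → ℂ) : Th x 1 0 = 0 := rfl
theorem DTh_10 (x w : Fin 6 → ℂ) : DTh x w 1 0 = 0 := rfl
theorem Th_11 (x : Fin 6 → ℂ) : Th x 1 1 = 0 := rfl
theorem DTh_11 (x w : Fin 6 → ℂ) : DTh x w 1 1 = 0 := rfl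
theorem Th_12 (x : Fin 6 → ℂ) : Th x 1 2 = x 0 * x 3 := rfl
theorem DTh_12 (x w : Fin 6 → ℂ) : DTh x w 1 2 = x 0 * w 3 + x 3 * w 0 := rfl
theorem Th_13 (x : Fin 6 → ℂ) : Th x 1 3 = -x 0 * x 2 := rfl
theorem DTh_13 (x w : Fin 6 → ℂ) : DTh x w 1 3 = -x 0 * w 2 - x 2 * w 0 := rfl
theorem Th_14 (x : Fin 6 → ℂ) : Th x 1 4 = 0 := rfl
theorem DTh_14 (x w : Fin 6 → ℂ) : DTh x w 1 4 = 0 := rfl
theorem Th_15 (x : Fin 6 → ℂ) : Th x 1 5 = 0 := rfl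
theorem DTh_15 (x w : Fin 6 → ℂ) : DTh x w 1 5 = 0 := rfl
theorem Th_20 (x : Fin 6 → ℂ) : Th x 2 0 = 0 := rfl
theorem DTh_20 (x w : Fin 6 → ℂ) : DTh x w 2 0 = 0 := rfl
theorem Th_21 (x : Fin 6 → ℂ) : Th x 2 1 = -x 0 * x 3 := rfl
theorem DTh_21 (x w : Fin 6 → ℂ) : DTh x w 2 1 = -x 0 * w 3 - x 3 * w 0 := rfl
theorem Th_22 (x : Fin 6 → ℂ) : Th x 2 2 = 0 := rfl
theorem DTh_22 (x w : Fin 6 → ℂ) : DTh x w 2 2 = 0 := rfl
theorem Th_23 (x : Fin 6 → ℂ) : Th x 2 3 = x 0 * x 1 := rfl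
theorem DTh_23 (x w : Fin 6 → ℂ) : DTh x w 2 3 = x 0 * w 1 + x 1 * w 0 := rfl
theorem Th_24 (x : Fin 6 → ℂ) : Th x 2 4 = 0 := rfl
theorem DTh_24 (x w : Fin 6 → ℂ) : DTh x w 2 4 = 0 := rfl
theorem Th_25 (x : Fin 6 → ℂ) : Th x 2 5 = 0 := rfl
theorem DTh_25 (x w : Fin 6 → ℂ) : DTh x w 2 5 = 0 := rfl
theorem Th_30 (x : Fin 6 → ℂ) : Th x 3 0 = 0 := rfl
theorem DTh_30 (x w : Fin 6 → ℂ) : DTh x w 3 0 = 0 := rfl
theorem Th_31 (x : Fin 6 → ℂ) : Th x 3 1 = x 0 * x 2 := rfl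
theorem DTh_31 (x w : Fin 6 → ℂ) : DTh x w 3 1 = x 0 * w 2 + x 2 * w 0 := rfl
theorem Th_32 (x : Fin 6 → ℂ) : Th x 3 2 = -x 0 * x 1 := rfl
theorem DTh_32 (x w : Fin 6 → ℂ) : DTh x w 3 2 = -x 0 * w 1 - x 1 * w 0 := rfl
theorem Th_33 (x : Fin 6 → ℂ) : Th x 3 3 = 0 := rfl
theorem DTh_33 (x w : Fin 6 → ℂ) : DTh x w 3 3 = 0 := rfl
theorem Th_34 (x : Fin 6 → ℂ) : Th x 3 4 = 0 := rfl
theorem DTh_34 (x w : Fin 6 → ℂ) : DTh x w 3 4 = 0 := rfl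
theorem Th_35 (x : Fin 6 → ℂ) : Th x 3 5 = 0 := rfl
theorem DTh_35 (x w : Fin 6 → ℂ) : DTh x w 3 5 = 0 := rfl
theorem Th_40 (x : Fin 6 → ℂ) : Th x 4 0 = 0 := rfl
theorem DTh_40 (x w : Fin 6 → ℂ) : DTh x w 4 0 = 0 := rfl
theorem Th_41 (x : Fin 6 → ℂ) : Th x 4 1 = 0 := rfl
theorem DTh_41 (x w : Fin 6 → ℂ) : DTh x w 4 1 = 0 := rfl
theorem Th_42 (x : Fin 6 → ℂ) : Th x 4 2 = 0 := rfl
theorem DTh_42 (x w : Fin 6 → ℂ) : DTh x w 4 2 = 0 := rfl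
theorem Th_43 (x : Fin 6 → ℂ) : Th x 4 3 = 0 := rfl
theorem DTh_43 (x w : Fin 6 → ℂ) : DTh x w 4 3 = 0 := rfl
theorem Th_44 (x : Fin 6 → ℂ) : Th x 4 4 = 0 := rfl
theorem DTh_44 (x w : Fin 6 → ℂ) : DTh x w 4 4 = 0 := rfl
theorem Th_45 (x : Fin 6 → ℂ) : Th x 4 5 = x 0 ^ 2 := rfl
theorem DTh_45 (x w : Fin 6 → ℂ) : DTh x w 4 5 = 2 * x 0 * w 0 := rfl
theorem Th_50 (x : Fin 6 → ℂ) : Th x 5 0 = 0 := rfl
theorem DTh_50 (x w : Fin 6 → ℂ) : DTh x w 5 0 = 0 := rfl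
theorem Th_51 (x : Fin 6 → ℂ) : Th x 5 1 = 0 := rfl
theorem DTh_51 (x w : Fin 6 → ℂ) : DTh x w 5 1 = 0 := rfl
theorem Th_52 (x : Fin 6 → ℂ) : Th x 5 2 = 0 := rfl
theorem DTh_52 (x w : Fin 6 → ℂ) : DTh x w 5 2 = 0 := rfl
theorem Th_53 (x : Fin 6 → ℂ) : Th x 5 3 = 0 := rfl
theorem DTh_53 (x w : Fin 6 → ℂ) : DTh x w 5 3 = 0 := rfl
theorem Th_54 (x : Fin 6 → ℂ) : Th x 5 4 = -x 0 ^ 2 := rfl
theorem DTh_54 (x w : Fin 6 → ℂ) : DTh x w 5 4 = -2 * x 0 * w 0 := rfl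
theorem Th_55 (x : Fin 6 → ℂ) : Th x 5 5 = 0 := rfl
theorem DTh_55 (x w : Fin 6 → ℂ) : DTh x w 5 5 = 0 := rfl

theorem Th_skew (x : Fin 6 → ℂ) : ∀ i j, Th x j i = -Th x i j := by
  apply fin6_cases <;> apply fin6_cases <;> simp only [Th_00, Th_01, Th_02, Th_03, Th_04, Th_05, Th_10, Th_11, Th_12, Th_13, Th_14, 
      Th_15, Th_20, Th_21, Th_22, Th_23, Th_24, Th_25, Th_30, Th_31, Th_32, Th_33, 
      Th_34, Th_35, Th_40, Th_41, Th_42, Th_43, Th_44, Th_45, Th_50, Th_51, Th_52, 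
      Th_53, Th_54, Th_55] <;> ring

theorem Th_smul (c : ℂ) (x : Fin 6 → ℂ) : ∀ i j, Th (c • x) i j = c ^ 2 * Th x i j := by
  apply fin6_cases <;> apply fin6_cases <;>
    simp only [Th_00, Th_01, Th_02, Th_03, Th_04, Th_05, Th_10, Th_11, Th_12, Th_13, Th_14, 
      Th_15, Th_20, Th_21, Th_22, Th_23, Th_24, Th_25, Th_30, Th_31, Th_32, Th_33, 
      Th_34, Th_35, Th_40, Th_41, Th_42, Th_43, Th_44, Th_45, Th_50, Th_51, Th_52, 
      Th_53, Th_54, Th_55, Pi.smul_apply, smul_eq_mul] <;> ring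

theorem Th_contDiff : ∀ i j, ContDiff ℂ ω (fun u : Fin 6 → ℂ => Th u i j) := by
  apply fin6_cases <;> apply fin6_cases <;> simp only [Th_00, Th_01, Th_02, Th_03, Th_04, Th_05, Th_10, Th_11, Th_12, Th_13, Th_14, 
      Th_15, Th_20, Th_21, Th_22, Th_23, Th_24, Th_25, Th_30, Th_31, Th_32, Th_33, 
      Th_34, Th_35, Th_40, Th_41, Th_42, Th_43, Th_44, Th_45, Th_50, Th_51, Th_52, 
      Th_53, Th_54, Th_55] <;> fun_prop

theorem Th_expand (x w : Fin 6 → ℂ) (t : ℂ) : ∀ i j,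
    Th (x + t • w) i j = Th x i j + t * DTh x w i j + t ^ 2 * Th w i j := by
  apply fin6_cases <;> apply fin6_cases <;>
    simp only [Th_00, Th_01, Th_02, Th_03, Th_04, Th_05, Th_10, Th_11, Th_12, Th_13, Th_14, 
      Th_15, Th_20, Th_21, Th_22, Th_23, Th_24, Th_25, Th_30, Th_31, Th_32, Th_33, 
      Th_34, Th_35, Th_40, Th_41, Th_42, Th_43, Th_44, Th_45, Th_50, Th_51, Th_52, 
      Th_53, Th_54, Th_55, DTh_00, DTh_01, DTh_02, DTh_03, DTh_04, DTh_05, DTh_10, DTh_11, DTh_12, DTh_13, 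
      DTh_14, DTh_15, DTh_20, DTh_21, DTh_22, DTh_23, DTh_24, DTh_25, DTh_30, DTh_31, 
      DTh_32, DTh_33, DTh_34, DTh_35, DTh_40, DTh_41, DTh_42, DTh_43, DTh_44, DTh_45, 
      DTh_50, DTh_51, DTh_52, DTh_53, DTh_54, DTh_55, Pi.add_apply, Pi.smul_apply, smul_eq_mul] <;> ring

theorem fderiv_Th (x w : Fin 6 → ℂ) (i j : Fin 6) :
    fderiv ℂ (fun u => Th u i j) x w = DTh x w i j :=
  fderiv_of_quadratic ((Th_contDiff i j).differentiable (by simp) x) fun t => Th_expand x w t i j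

theorem jacTh_0 (x : Fin 6 → ℂ) : ∀ j k,
    DTh x (Th x 0) j k + DTh x (Th x j) k 0 + DTh x (Th x k) 0 j = 0 := by
  apply fin6_cases <;> apply fin6_cases <;>
    simp only [Th_00, Th_01, Th_02, Th_03, Th_04, Th_05, Th_10, Th_11, Th_12, Th_13, Th_14, 
      Th_15, Th_20, Th_21, Th_22, Th_23, Th_24, Th_25, Th_30, Th_31, Th_32, Th_33, 
      Th_34, Th_35, Th_40, Th_41, Th_42, Th_43, Th_44, Th_45, Th_50, Th_51, Th_52, 
      Th_53, Th_54, Th_55, DTh_00, DTh_01, DTh_02, DTh_03, DTh_04, DTh_05, DTh_10, DTh_11, DTh_12, DTh_13, 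
      DTh_14, DTh_15, DTh_20, DTh_21, DTh_22, DTh_23, DTh_24, DTh_25, DTh_30, DTh_31, 
      DTh_32, DTh_33, DTh_34, DTh_35, DTh_40, DTh_41, DTh_42, DTh_43, DTh_44, DTh_45, 
      DTh_50, DTh_51, DTh_52, DTh_53, DTh_54, DTh_55] <;> ring

theorem jacTh_1 (x : Fin 6 → ℂ) : ∀ j k,
    DTh x (Th x 1) j k + DTh x (Th x j) k 1 + DTh x (Th x k) 1 j = 0 := by
  apply fin6_cases <;> apply fin6_cases <;>
    simp only [Th_00, Th_01, Th_02, Th_03, Th_04, Th_05, Th_10, Th_11, Th_12, Th_13, Th_14, 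
      Th_15, Th_20, Th_21, Th_22, Th_23, Th_24, Th_25, Th_30, Th_31, Th_32, Th_33, 
      Th_34, Th_35, Th_40, Th_41, Th_42, Th_43, Th_44, Th_45, Th_50, Th_51, Th_52, 
      Th_53, Th_54, Th_55, DTh_00, DTh_01, DTh_02, DTh_03, DTh_04, DTh_05, DTh_10, DTh_11, DTh_12, DTh_13, 
      DTh_14, DTh_15, DTh_20, DTh_21, DTh_22, DTh_23, DTh_24, DTh_25, DTh_30, DTh_31, 
      DTh_32, DTh_33, DTh_34, DTh_35, DTh_40, DTh_41, DTh_42, DTh_43, DTh_44, DTh_45, 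
      DTh_50, DTh_51, DTh_52, DTh_53, DTh_54, DTh_55] <;> ring

theorem jacTh_2 (x : Fin 6 → ℂ) : ∀ j k,
    DTh x (Th x 2) j k + DTh x (Th x j) k 2 + DTh x (Th x k) 2 j = 0 := by
  apply fin6_cases <;> apply fin6_cases <;>
    simp only [Th_00, Th_01, Th_02, Th_03, Th_04, Th_05, Th_10, Th_11, Th_12, Th_13, Th_14, 
      Th_15, Th_20, Th_21, Th_22, Th_23, Th_24, Th_25, Th_30, Th_31, Th_32, Th_33, 
      Th_34, Th_35, Th_40, Th_41, Th_42, Th_43, Th_44, Th_45, Th_50, Th_51, Th_52, 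
      Th_53, Th_54, Th_55, DTh_00, DTh_01, DTh_02, DTh_03, DTh_04, DTh_05, DTh_10, DTh_11, DTh_12, DTh_13, 
      DTh_14, DTh_15, DTh_20, DTh_21, DTh_22, DTh_23, DTh_24, DTh_25, DTh_30, DTh_31, 
      DTh_32, DTh_33, DTh_34, DTh_35, DTh_40, DTh_41, DTh_42, DTh_43, DTh_44, DTh_45, 
      DTh_50, DTh_51, DTh_52, DTh_53, DTh_54, DTh_55] <;> ring

theorem jacTh_3 (x : Fin 6 → ℂ) : ∀ j k,
    DTh x (Th x 3) j k + DTh x (Th x j) k 3 + DTh x (Th x k) 3 j = 0 := by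
  apply fin6_cases <;> apply fin6_cases <;>
    simp only [Th_00, Th_01, Th_02, Th_03, Th_04, Th_05, Th_10, Th_11, Th_12, Th_13, Th_14, 
      Th_15, Th_20, Th_21, Th_22, Th_23, Th_24, Th_25, Th_30, Th_31, Th_32, Th_33, 
      Th_34, Th_35, Th_40, Th_41, Th_42, Th_43, Th_44, Th_45, Th_50, Th_51, Th_52, 
      Th_53, Th_54, Th_55, DTh_00, DTh_01, DTh_02, DTh_03, DTh_04, DTh_05, DTh_10, DTh_11, DTh_12, DTh_13, 
      DTh_14, DTh_15, DTh_20, DTh_21, DTh_22, DTh_23, DTh_24, DTh_25, DTh_30, DTh_31, 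
      DTh_32, DTh_33, DTh_34, DTh_35, DTh_40, DTh_41, DTh_42, DTh_43, DTh_44, DTh_45, 
      DTh_50, DTh_51, DTh_52, DTh_53, DTh_54, DTh_55] <;> ring

theorem jacTh_4 (x : Fin 6 → ℂ) : ∀ j k,
    DTh x (Th x 4) j k + DTh x (Th x j) k 4 + DTh x (Th x k) 4 j = 0 := by
  apply fin6_cases <;> apply fin6_cases <;>
    simp only [Th_00, Th_01, Th_02, Th_03, Th_04, Th_05, Th_10, Th_11, Th_12, Th_13, Th_14, 
      Th_15, Th_20, Th_21, Th_22, Th_23, Th_24, Th_25, Th_30, Th_31, Th_32, Th_33, 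
      Th_34, Th_35, Th_40, Th_41, Th_42, Th_43, Th_44, Th_45, Th_50, Th_51, Th_52, 
      Th_53, Th_54, Th_55, DTh_00, DTh_01, DTh_02, DTh_03, DTh_04, DTh_05, DTh_10, DTh_11, DTh_12, DTh_13, 
      DTh_14, DTh_15, DTh_20, DTh_21, DTh_22, DTh_23, DTh_24, DTh_25, DTh_30, DTh_31, 
      DTh_32, DTh_33, DTh_34, DTh_35, DTh_40, DTh_41, DTh_42, DTh_43, DTh_44, DTh_45, 
      DTh_50, DTh_51, DTh_52, DTh_53, DTh_54, DTh_55] <;> ring

theorem jacTh_5 (x : Fin 6 → ℂ) : ∀ j k,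
    DTh x (Th x 5) j k + DTh x (Th x j) k 5 + DTh x (Th x k) 5 j = 0 := by
  apply fin6_cases <;> apply fin6_cases <;>
    simp only [Th_00, Th_01, Th_02, Th_03, Th_04, Th_05, Th_10, Th_11, Th_12, Th_13, Th_14, 
      Th_15, Th_20, Th_21, Th_22, Th_23, Th_24, Th_25, Th_30, Th_31, Th_32, Th_33, 
      Th_34, Th_35, Th_40, Th_41, Th_42, Th_43, Th_44, Th_45, Th_50, Th_51, Th_52, 
      Th_53, Th_54, Th_55, DTh_00, DTh_01, DTh_02, DTh_03, DTh_04, DTh_05, DTh_10, DTh_11, DTh_12, DTh_13, 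
      DTh_14, DTh_15, DTh_20, DTh_21, DTh_22, DTh_23, DTh_24, DTh_25, DTh_30, DTh_31, 
      DTh_32, DTh_33, DTh_34, DTh_35, DTh_40, DTh_41, DTh_42, DTh_43, DTh_44, DTh_45, 
      DTh_50, DTh_51, DTh_52, DTh_53, DTh_54, DTh_55] <;> ring

theorem Th_jacobi (v : Fin 6 → ℂ) (i j k : Fin 6) :
    (∑ l, Th v i l * fderiv ℂ (fun u => Th u j k) v (Pi.single l 1)) +
      (∑ l, Th v j l * fderiv ℂ (fun u => Th u k i) v (Pi.single l 1)) +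
      (∑ l, Th v k l * fderiv ℂ (fun u => Th u i j) v (Pi.single l 1)) = 0 := by
  rw [← clm_apply_eq_sum, ← clm_apply_eq_sum, ← clm_apply_eq_sum, fderiv_Th, fderiv_Th, fderiv_Th]
  revert i
  exact fin6_cases (jacTh_0 v j k) (jacTh_1 v j k) (jacTh_2 v j k) (jacTh_3 v j k)
    (jacTh_4 v j k) (jacTh_5 v j k)

theorem Th_zero_left (x : Fin 6 → ℂ) : ∀ j, Th x 0 j = 0 :=
  fin6_cases rfl rfl rfl rfl rfl rfl

theorem Th_zero_right (x : Fin 6 → ℂ) : ∀ i, Th x i 0 = 0 :=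
  fin6_cases rfl rfl rfl rfl rfl rfl

theorem Th_eq_zero {x : Fin 6 → ℂ} (h : x 0 = 0) : ∀ i j, Th x i j = 0 := by
  apply fin6_cases <;> apply fin6_cases <;> simp only [Th_00, Th_01, Th_02, Th_03, Th_04, Th_05, Th_10, Th_11, Th_12, Th_13, Th_14, 
      Th_15, Th_20, Th_21, Th_22, Th_23, Th_24, Th_25, Th_30, Th_31, Th_32, Th_33, 
      Th_34, Th_35, Th_40, Th_41, Th_42, Th_43, Th_44, Th_45, Th_50, Th_51, Th_52, 
      Th_53, Th_54, Th_55, h] <;> ring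

/-- The tensor in the affine chart `x 0 ≠ 0`. -/
noncomputable def Ta (x : Fin 6 → ℂ) : Fin 5 → Fin 5 → ℂ :=
  fun i j => Th x i.succ j.succ / x 0 ^ 2

theorem Ta_skew (x : Fin 6 → ℂ) (i j : Fin 5) : Ta x j i = -Ta x i j := by
  rw [Ta, Ta, Th_skew, neg_div]

theorem fderiv_aff_zero {x u : Fin 6 → ℂ} (hx : x 0 ≠ 0) (hu : u 0 = 0) (i : Fin 5) :
    fderiv ℂ (aff 0) x u i = u i.succ / x 0 := by
  have hd : DifferentiableAt ℂ (aff (n := 5) 0) x :=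
    (contDiffAt_aff 0 hx).differentiableAt (by simp)
  have h1 : fderiv ℂ (aff 0) x u i = fderiv ℂ (fun y => aff (n := 5) 0 y i) x u := by
    rw [fderiv_apply hd]
    rfl
  rw [h1]
  refine fderiv_of_quadratic (C := 0) (differentiableAt_pi.mp hd i) fun t => ?_
  simp only [aff, Fin.succAbove_zero, Pi.add_apply, Pi.smul_apply, smul_eq_mul, hu]
  ring

theorem pushSh_comp {x : Fin 6 → ℂ} (hx : x 0 ≠ 0) (D : (Fin 5 → ℂ) →L[ℂ] (Fin 5 → ℂ)) :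
    pushSh (D.comp (fderiv ℂ (aff 0) x)) (Th x) = pushSh D (Ta x) := by
  ext1 α
  change D (fderiv ℂ (aff 0) x (sh (Th x) ((α.comp D).comp (fderiv ℂ (aff 0) x)))) =
    D (sh (Ta x) (α.comp D))
  congr 1
  set β := α.comp D
  funext j
  rw [fderiv_aff_zero hx (by simp only [sh_apply, Th_zero_right, zero_mul, Finset.sum_const_zero]),
    sh_apply, sh_apply, Fin.sum_univ_succ, Th_zero_left, zero_mul, zero_add, Finset.sum_div]
  refine Finset.sum_congr rfl fun i _ => ?_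
  have h1 : fderiv ℂ (aff 0) x (Pi.single i.succ 1) = (x 0)⁻¹ • Pi.single i (1 : ℂ) := by
    funext l
    rw [fderiv_aff_zero hx (by simp)]
    simp [Pi.single_apply, div_eq_inv_mul]
  rw [ContinuousLinearMap.comp_apply, h1, map_smul, Ta, smul_eq_mul]
  field_simp

theorem rank_Ta_eq_two_iff {x : Fin 6 → ℂ} (hx : x 0 ≠ 0) :
    (Matrix.of (Ta x)).rank = 2 ↔ x 1 = 0 ∧ x 2 = 0 ∧ x 3 = 0 := by
  have h34 : Ta x 3 4 = 1 := by
    change Th x 4 5 / x 0 ^ 2 = 1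
    rw [Th_45, div_self (pow_ne_zero 2 hx)]
  have hp : ∀ a b : Fin 5, Th x a.succ 4 = 0 → Th x b.succ 4 = 0 →
      pf4 (Ta x) a b 3 4 = Th x a.succ b.succ / x 0 ^ 2 := by
    intro a b ha hb
    have h1 : Ta x a 3 = 0 := by
      change Th x a.succ 4 / x 0 ^ 2 = 0
      rw [ha, zero_div]
    have h2 : Ta x b 3 = 0 := by
      change Th x b.succ 4 / x 0 ^ 2 = 0
      rw [hb, zero_div]
    rw [pf4, h34, h1, h2, Ta]
    ring
  constructor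
  · intro h
    have hz : ∀ a b c d, pf4 (Ta x) a b c d = 0 := by
      intro a b c d
      by_contra hne
      have := four_le_rank (Ta_skew x) hne
      omega
    have h1 : Th x 2 3 / x 0 ^ 2 = 0 := (hp 1 2 rfl rfl).symm.trans (hz _ _ _ _)
    have h2 : Th x 3 1 / x 0 ^ 2 = 0 := (hp 2 0 rfl rfl).symm.trans (hz _ _ _ _)
    have h3 : Th x 1 2 / x 0 ^ 2 = 0 := (hp 0 1 rfl rfl).symm.trans (hz _ _ _ _)
    simp only [Th_23, Th_31, Th_12, div_eq_zero_iff, mul_eq_zero, hx, false_or,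
      pow_eq_zero_iff two_ne_zero, or_false] at h1 h2 h3
    exact ⟨h1, h2, h3⟩
  · rintro ⟨h1, h2, h3⟩
    have hne : Ta x 3 4 ≠ 0 := by rw [h34]; exact one_ne_zero
    refine le_antisymm (rank_le_two hne ?_) (two_le_rank (Ta_skew x) hne)
    apply fin5_cases <;> apply fin5_cases <;>
      simp [pf4, Ta, Th_00, Th_01, Th_02, Th_03, Th_04, Th_05, Th_10, Th_11, Th_12, Th_13, Th_14, 
      Th_15, Th_20, Th_21, Th_22, Th_23, Th_24, Th_25, Th_30, Th_31, Th_32, Th_33, 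
      Th_34, Th_35, Th_40, Th_41, Th_42, Th_43, Th_44, Th_45, Th_50, Th_51, Th_52, 
      Th_53, Th_54, Th_55, h1, h2, h3] <;> ring

theorem proj_main :
    ∃ τ : SharpField (Fin 5 → ℂ) (PS 5), IsHolPoisson τ ∧ (rankLocus τ 2).Nonempty ∧
      ∀ x ∈ rankLocus τ 2, IsSubmanifoldAt (Fin 5 → ℂ) 2 (rankLocus τ 2) x := by
  obtain ⟨τ, hτ, hrk⟩ := descent (n := 5) (π := pr 5) (M := {0}ᶜ) isOpen_compl_singleton
    (fun v hv => contMDiffAt_pr hv) exists_section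
    (fun v hv w hw h => by
      obtain ⟨c, rfl⟩ := (pr_eq_iff hv hw).mp h
      have hc : c ≠ 0 := by
        rintro rfl
        exact hw (zero_smul ℂ v)
      refine ⟨c, hc, rfl, ?_⟩
      filter_upwards [isOpen_compl_singleton.mem_nhds hv] with u hu
      exact pr_smul hc hu)
    (fun v i j => (Th_contDiff i j).contDiffAt) Th_skew Th_smul Th_jacobi
  have hiff0 : ∀ x : PS 5, ∃ v : Fin 6 → ℂ, v ≠ 0 ∧ pr 5 v = x ∧
      (rankAt τ x = 2 ↔ v 0 ≠ 0 ∧ v 1 = 0 ∧ v 2 = 0 ∧ v 3 = 0) := by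
    intro x
    obtain ⟨v, hv, hx, h⟩ := hrk x
    refine ⟨v, hv, hx, ?_⟩
    by_cases h0 : v 0 = 0
    · have h1 : pushSh (dπ 5 (pr 5) v) (Th v) = 0 := by
        ext1 α
        change dπ 5 (pr 5) v (sh (Th v) _) = 0
        have : sh (Th v) (α.comp (dπ 5 (pr 5) v)) = 0 := by
          funext j
          simp only [sh_apply, Th_eq_zero h0, zero_mul, Finset.sum_const_zero, Pi.zero_apply]
        rw [this, map_zero]
      rw [h, h1, LinearMap.range_zero, finrank_bot]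
      simp [h0]
    · obtain ⟨D, hD, hd⟩ := dπ_pr (n := 5) h0
      rw [h, hd, pushSh_comp h0, finrank_range_pushSh hD, rank_Ta_eq_two_iff h0]
      simp [h0]
  have hiff : ∀ v : Fin 6 → ℂ, v 0 ≠ 0 →
      (rankAt τ (pr 5 v) = 2 ↔ v 1 = 0 ∧ v 2 = 0 ∧ v 3 = 0) := by
    intro v hv
    obtain ⟨w, hw, hx, h⟩ := hiff0 (pr 5 v)
    obtain ⟨c, rfl⟩ := (pr_eq_iff (ne_zero_of_apply hv) hw).mp hx.symm
    have hc : c ≠ 0 := by
      rintro rfl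
      exact hw (zero_smul ℂ v)
    rw [h]
    simp [hc, hv]
  refine ⟨τ, hτ, ⟨pr 5 ![1, 0, 0, 0, 0, 0], (hiff _ (by simp)).mpr (by simp)⟩, ?_⟩
  intro x hx
  obtain ⟨v, hv, rfl, h⟩ := hiff0 x
  have h0 : v 0 ≠ 0 := (h.mp hx).1
  have hx' : pr 5 v ∈ (chartP 0).source := (mem_chartP_source hv).mpr h0
  let T : (Fin 5 → ℂ) →L[ℂ] (Fin 3 → ℂ) :=
    ContinuousLinearMap.pi fun i => ContinuousLinearMap.proj (Fin.castAdd 2 i)
  have hT : Function.Surjective T := by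
    intro t
    refine ⟨![t 0, t 1, t 2, 0, 0], ?_⟩
    funext i
    revert i
    exact fin3_cases rfl rfl rfl
  have hQ : ContMDiff 𝓘(ℂ, Fin 5 → ℂ) 𝓘(ℂ, Fin 3 → ℂ) ω T := T.contDiff.contMDiff
  refine isSubmanifoldAt_of_surjective (k := 3) (U := (chartP 0).source) (f := T ∘ chartP 0) rfl
    (chartP 0).open_source hx' ?_ ?_ ?_
  · exact hQ.comp_contMDiffOn
      (contMDiffOn_of_mem_maximalAtlas (IsManifold.subset_maximalAtlas (chartP_mem_atlas 0)))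
  · have h1 := mfderiv_comp (pr 5 v) (hQ.mdifferentiableAt (by simp))
      (mdifferentiableAt_atlas (I := 𝓘(ℂ, Fin 5 → ℂ)) (chartP_mem_atlas 0) hx')
    have h2 := (mdifferentiable_of_mem_atlas (I := 𝓘(ℂ, Fin 5 → ℂ))
      (chartP_mem_atlas 0)).mfderiv_surjective hx'
    rw [h1, mfderiv_eq_fderiv, T.fderiv]
    exact hT.comp h2
  · rintro _ ⟨u, hu, rfl⟩
    have hu0 : u 0 ≠ 0 := hu
    refine (hiff u hu).trans ?_
    change _ ↔ T (affQ 0 (pr 5 u)) = 0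
    rw [affQ_pr 0 (ne_zero_of_apply hu), funext_iff]
    constructor
    · rintro ⟨h1, h2, h3⟩
      refine fin3_cases ?_ ?_ ?_
      · change u 1 / u 0 = 0
        rw [h1, zero_div]
      · change u 2 / u 0 = 0
        rw [h2, zero_div]
      · change u 3 / u 0 = 0
        rw [h3, zero_div]
    · intro h
      have h1 : u 1 / u 0 = 0 := h 0
      have h2 : u 2 / u 0 = 0 := h 1
      have h3 : u 3 / u 0 = 0 := h 2
      exact ⟨(div_eq_zero_iff.mp h1).resolve_right hu0, (div_eq_zero_iff.mp h2).resolve_right hu0,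
        (div_eq_zero_iff.mp h3).resolve_right hu0⟩

end Pool.Agent.Lib.MP_77e77d_ag
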